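import Pool.Agent.L0h54.HV.Bon
import Pool.Agent.L0h62.MT.D

set_option autoImplicit false

/-! Fourth moments of bilinear forms in the values of the characters modulo `P`. -/

namespace Pool.Agent.L0h54.CV

open Finset
open scoped Classical
open Pool.Agent.L0h54.HV (Pr Pr_mem v4 bon_count)
open Pool.Agent.L0h54.GC (sqi sqi_nonneg)
open Pool.Agent.L0h62.MT (orth sq_conj)

/-- the mean square over the characters of a family -/
theorem fam_sq (P : ℕ) [NeZero P] {ι : Type} (I : Finset ι) (c : ι → ℂ) (u v : ι → ℕ)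
    (h : ∀ i ∈ I, ∀ i' ∈ I, u i * v i' < P) :
    ∑ χ : DirichletCharacter ℂ P,
      ‖∑ i ∈ I, c i * (χ (u i : ZMod P) * (starRingEnd ℂ) (χ (v i : ZMod P)))‖ ^ 2 ≤
      P * ∑ i ∈ I, ∑ i' ∈ I, ‖c i‖ * ‖c i'‖ * (if u i * v i' = u i' * v i then 1 else 0) := by
  have e1 : ∀ χ : DirichletCharacter ℂ P,
      ((‖∑ i ∈ I, c i * (χ (u i : ZMod P) * (starRingEnd ℂ) (χ (v i : ZMod P)))‖ ^ 2 : ℝ) : ℂ) =
      ∑ i ∈ I, ∑ i' ∈ I, (c i * (starRingEnd ℂ) (c i')) *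
        (χ ((u i * v i' : ℕ) : ZMod P) * (starRingEnd ℂ) (χ ((u i' * v i : ℕ) : ZMod P))) := by
    intro χ
    rw [sq_conj, map_sum, sum_mul_sum]
    refine sum_congr rfl fun i _ => sum_congr rfl fun i' _ => ?_
    push_cast
    simp only [map_mul, Complex.conj_conj]
    ring
  have e2 : ((∑ χ : DirichletCharacter ℂ P,
      ‖∑ i ∈ I, c i * (χ (u i : ZMod P) * (starRingEnd ℂ) (χ (v i : ZMod P)))‖ ^ 2 : ℝ) : ℂ) =
      ∑ i ∈ I, ∑ i' ∈ I, (c i * (starRingEnd ℂ) (c i')) *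
        ∑ χ : DirichletCharacter ℂ P,
          (χ ((u i * v i' : ℕ) : ZMod P) * (starRingEnd ℂ) (χ ((u i' * v i : ℕ) : ZMod P))) := by
    rw [Complex.ofReal_sum]
    simp only [e1]
    rw [sum_comm]
    refine sum_congr rfl fun i _ => ?_
    rw [sum_comm]
    refine sum_congr rfl fun i' _ => ?_
    rw [mul_sum]
  have e3 : ∑ χ : DirichletCharacter ℂ P,
      ‖∑ i ∈ I, c i * (χ (u i : ZMod P) * (starRingEnd ℂ) (χ (v i : ZMod P)))‖ ^ 2 ≤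
      ‖((∑ χ : DirichletCharacter ℂ P,
      ‖∑ i ∈ I, c i * (χ (u i : ZMod P) * (starRingEnd ℂ) (χ (v i : ZMod P)))‖ ^ 2 : ℝ) : ℂ)‖ := by
    rw [Complex.norm_real]
    exact le_abs_self _
  refine e3.trans ?_
  rw [e2, mul_sum]
  refine (norm_sum_le _ _).trans (sum_le_sum fun i hi => ?_)
  rw [mul_sum]
  refine (norm_sum_le _ _).trans (sum_le_sum fun i' hi' => ?_)
  rw [orth, norm_mul, norm_mul, Complex.norm_conj]
  have hφ : ((P.totient : ℕ) : ℝ) ≤ P := by exact_mod_cast Nat.totient_le P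
  by_cases hc : IsUnit ((u i' * v i : ℕ) : ZMod P) ∧ ((u i' * v i : ℕ) : ZMod P) = ((u i * v i' : ℕ) : ZMod P)
  · have h1 : u i * v i' = u i' * v i := by
      have h2 := hc.2
      rw [ZMod.natCast_eq_natCast_iff'] at h2
      rw [Nat.mod_eq_of_lt (h i' hi' i hi), Nat.mod_eq_of_lt (h i hi i' hi')] at h2
      exact h2.symm
    rw [if_pos hc, if_pos h1, mul_one, Complex.norm_natCast]
    calc ‖c i‖ * ‖c i'‖ * (P.totient : ℝ) ≤ ‖c i‖ * ‖c i'‖ * P := by gcongr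
      _ = _ := by ring
  · rw [if_neg hc, norm_zero, mul_zero]
    split_ifs <;> positivity

lemma sq_prodC (N : ℕ) (a : ℕ × ℕ → ℂ) : (∑ w ∈ Pr N, a w) ^ 2 = ∑ i ∈ Pr N ×ˢ Pr N, a i.1 * a i.2 := by
  rw [sq, Finset.sum_mul_sum, Finset.sum_product]

lemma Pr_le {N : ℕ} {w : ℕ × ℕ} (h : w ∈ Pr N) : w.1 ≤ N ∧ w.2 ≤ N := by
  obtain ⟨a1, a2, -⟩ := Pr_mem h
  rw [mem_filter, mem_Icc] at a1 a2
  exact ⟨a1.1.2, a2.1.2⟩

/-- from the count of the octuples -/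
lemma count_le (N : ℕ) (c : ℕ × ℕ → ℂ) (J : (ℕ × ℕ) × (ℕ × ℕ) → (ℕ × ℕ) × (ℕ × ℕ) → Prop)
    [∀ i i', Decidable (J i i')] (hJ : ∀ i i', J i i' → IsSquare (v4 i * v4 i')) :
    ∑ i ∈ Pr N ×ˢ Pr N, ∑ i' ∈ Pr N ×ˢ Pr N, ‖c i.1 * c i.2‖ * ‖c i'.1 * c i'.2‖ *
      (if J i i' then (1:ℝ) else 0) ≤ 81 * (∑ w ∈ Pr N, ‖c w‖ ^ 2) ^ 2 := by
  refine le_trans ?_ (bon_count N (fun w => ‖c w‖))
  refine sum_le_sum fun i _ => sum_le_sum fun i' _ => ?_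
  have e : ∀ j : (ℕ × ℕ) × (ℕ × ℕ), ‖c j.1 * c j.2‖ = |‖c j.1‖ * ‖c j.2‖| := by
    intro j
    rw [norm_mul, abs_of_nonneg (by positivity)]
  rw [e i, e i']
  apply mul_le_mul_of_nonneg_left _ (by positivity)
  by_cases h : J i i'
  · rw [if_pos h]
    unfold sqi
    rw [if_pos (hJ i i' h)]
  · rw [if_neg h]
    exact sqi_nonneg _

theorem bonA (P N : ℕ) [NeZero P] (hN : N ^ 4 < P) (c : ℕ × ℕ → ℂ) :
    ∑ χ : DirichletCharacter ℂ P,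
      ‖∑ w ∈ Pr N, c w * (χ (w.1 : ZMod P) * (starRingEnd ℂ) (χ (w.2 : ZMod P)))‖ ^ 4 ≤
      P * (81 * (∑ w ∈ Pr N, ‖c w‖ ^ 2) ^ 2) := by
  have h := fam_sq P (Pr N ×ˢ Pr N) (fun i => c i.1 * c i.2) (fun i => i.1.1 * i.2.1) (fun i => i.1.2 * i.2.2) ?_
  · have e : ∀ χ : DirichletCharacter ℂ P,
        ‖∑ w ∈ Pr N, c w * (χ (w.1 : ZMod P) * (starRingEnd ℂ) (χ (w.2 : ZMod P)))‖ ^ 4 =
        ‖∑ i ∈ Pr N ×ˢ Pr N, c i.1 * c i.2 * (χ ((i.1.1 * i.2.1 : ℕ) : ZMod P) *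
          (starRingEnd ℂ) (χ ((i.1.2 * i.2.2 : ℕ) : ZMod P)))‖ ^ 2 := by
      intro χ
      have e2 : ∀ t : ℝ, t ^ 4 = (t ^ 2) ^ 2 := fun t => by ring
      rw [e2, ← norm_pow, sq_prodC]
      congr 2
      refine sum_congr rfl fun i _ => ?_
      push_cast
      simp only [map_mul]
      ring
    simp only [e]
    refine h.trans (mul_le_mul_of_nonneg_left ?_ (Nat.cast_nonneg _))
    refine count_le N c (fun i i' => i.1.1 * i.2.1 * (i'.1.2 * i'.2.2) = i'.1.1 * i'.2.1 * (i.1.2 * i.2.2)) ?_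
    intro i i' hh
    refine ⟨i.1.1 * i.2.1 * (i'.1.2 * i'.2.2), ?_⟩
    unfold v4
    nth_rewrite 2 [hh]
    ring
  · intro i hi i' hi'
    rw [mem_product] at hi hi'
    obtain ⟨a1, a2⟩ := Pr_le hi.1
    obtain ⟨b1, b2⟩ := Pr_le hi.2
    obtain ⟨c1, c2⟩ := Pr_le hi'.1
    obtain ⟨d1, d2⟩ := Pr_le hi'.2
    refine lt_of_le_of_lt ?_ hN
    calc i.1.1 * i.2.1 * (i'.1.2 * i'.2.2) ≤ N * N * (N * N) :=
          Nat.mul_le_mul (Nat.mul_le_mul a1 b1) (Nat.mul_le_mul c2 d2)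
      _ = N ^ 4 := by ring

theorem bonB (P N : ℕ) [NeZero P] (hN : N ^ 4 < P) (c : ℕ × ℕ → ℂ) :
    ∑ χ : DirichletCharacter ℂ P,
      ‖∑ w ∈ Pr N, c w * (χ (w.1 : ZMod P) * χ (w.2 : ZMod P))‖ ^ 4 ≤
      P * (81 * (∑ w ∈ Pr N, ‖c w‖ ^ 2) ^ 2) := by
  have h := fam_sq P (Pr N ×ˢ Pr N) (fun i => c i.1 * c i.2) (fun i => v4 i) (fun _ => 1) ?_
  · have e : ∀ χ : DirichletCharacter ℂ P,
        ‖∑ w ∈ Pr N, c w * (χ (w.1 : ZMod P) * χ (w.2 : ZMod P))‖ ^ 4 =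
        ‖∑ i ∈ Pr N ×ˢ Pr N, c i.1 * c i.2 * (χ ((v4 i : ℕ) : ZMod P) *
          (starRingEnd ℂ) (χ ((1 : ℕ) : ZMod P)))‖ ^ 2 := by
      intro χ
      have e2 : ∀ t : ℝ, t ^ 4 = (t ^ 2) ^ 2 := fun t => by ring
      rw [e2, ← norm_pow, sq_prodC]
      congr 2
      refine sum_congr rfl fun i _ => ?_
      unfold v4
      push_cast
      simp only [map_mul, map_one]
      ring
    simp only [e]
    refine h.trans (mul_le_mul_of_nonneg_left ?_ (Nat.cast_nonneg _))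
    refine count_le N c (fun i i' => v4 i * 1 = v4 i' * 1) ?_
    intro i i' hh
    rw [mul_one, mul_one] at hh
    exact ⟨v4 i, by rw [← hh]⟩
  · intro i hi i' hi'
    rw [mem_product] at hi
    obtain ⟨a1, a2⟩ := Pr_le hi.1
    obtain ⟨b1, b2⟩ := Pr_le hi.2
    refine lt_of_le_of_lt ?_ hN
    unfold v4
    calc i.1.1 * i.1.2 * (i.2.1 * i.2.2) * 1 ≤ N * N * (N * N) * 1 :=
          Nat.mul_le_mul (Nat.mul_le_mul (Nat.mul_le_mul a1 a2) (Nat.mul_le_mul b1 b2)) le_rfl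
      _ = N ^ 4 := by ring

end Pool.Agent.L0h54.CV
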