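import Pool.Agent.L0h54.CV.A
import Pool.Agent.L0h54.HV.Fin4

set_option autoImplicit false

/-! The exceptional characters for one interval and one modulus. -/

namespace Pool.Agent.L0h54.CV

open Finset
open scoped Classical
open Pool.Agent.H306R2.RZ (js)
open Pool.Agent.L0h41.MQ (AP cf odd)
open Pool.Agent.L0h54.HV (Pr Pr_mem Ke Vo Dg Df KER Lg Lg_nonneg)
open ArithmeticFunction (vonMangoldt)

/-- the function on the primes and squares, times an auxiliary symbol -/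
noncomputable def Fg (l : ℕ) (g : ℕ → ℝ) (n : ℕ) : ℝ := if n.Prime ∨ IsSquare n then g n * js (n : ℤ) l else 0

/-- the indicator function of the primes -/
noncomputable def prim (n : ℕ) : ℝ := if n.Prime then 1 else 0

lemma prim_le (n : ℕ) : |prim n| ≤ 1 := by
  unfold prim
  split_ifs <;> simp

lemma js_le_one (n l : ℕ) : |js n l| ≤ 1 := by
  unfold js
  rcases jacobiSym.trichotomy (n : ℤ) l with h | h | h <;> rw [h] <;> norm_num

lemma Fg_le (l : ℕ) (g : ℕ → ℝ) (hg : ∀ n, |g n| ≤ 1) (n : ℕ) : |Fg l g n| ≤ 1 := by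
  unfold Fg
  split_ifs
  · rw [abs_mul]
    exact mul_le_one₀ (hg n) (abs_nonneg _) (js_le_one n l)
  · simp

lemma js_sq (p l : ℕ) (hl : l.Prime) (hp : 1 ≤ p) (hpl : p < l) : js (p : ℤ) l ^ 2 = 1 := by
  apply Pool.Agent.L0h54.GC.js_sq_one p l hl
  intro hd
  exact absurd (Nat.le_of_dvd hp hd) (by omega)

lemma cf_Fg (y z q a l : ℕ) (g : ℕ → ℝ) (p : ℕ) :
    cf y z q a (Fg l g) p = cf y z q a prim p * (g p * js (p : ℤ) l) := by
  unfold cf
  rw [sum_mul]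
  refine sum_congr rfl fun n hn => ?_
  rw [mem_filter] at hn
  unfold Fg prim
  by_cases h : n.Prime
  · have e : n = p := by rw [← hn.2.2, h.minFac_eq]
    rw [if_pos (Or.inl h), if_pos h, e]
    ring
  · have h2 : ¬ (n.Prime ∨ IsSquare n) := by
      rintro (h3 | h3)
      · exact h h3
      · exact hn.2.1.2 h3
    rw [if_neg h2, if_neg h]
    ring

lemma Ke_Fg (q y z l : ℕ) (g : ℕ → ℝ) (hl : l.Prime) (w : ℕ × ℕ) (h1 : 1 ≤ w.1 ∧ w.1 < l) (h2 : 1 ≤ w.2 ∧ w.2 < l) :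
    Ke q y z (Fg l g) w * (js (w.1 : ℤ) l * js (w.2 : ℤ) l) = Ke q y z prim w * (g w.1 * g w.2) := by
  unfold Ke
  have e1 := js_sq w.1 l hl h1.1 h1.2
  have e2 := js_sq w.2 l hl h2.1 h2.2
  rw [mul_assoc, mul_assoc]
  congr 1
  rw [sum_mul, sum_mul]
  refine sum_congr rfl fun a _ => ?_
  rw [cf_Fg, cf_Fg]
  calc _ = cf y z q a prim w.1 * cf y z q a prim w.2 * (g w.1 * g w.2) *
        (js (w.1 : ℤ) l ^ 2 * js (w.2 : ℤ) l ^ 2) := by ring
    _ = _ := by rw [e1, e2]; ring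

lemma Df_Fg (hK : KER) (N q y z l : ℕ) (g : ℕ → ℝ) (hg : ∀ n, |g n| ≤ 1) (hN : 2 ≤ N) (hq : 1 ≤ q) (hyz : y ≤ z)
    (hz : z ≤ N) (hl : l.Prime) (hNl : N < l) :
    Df N q y z (Fg l g) l = ∑ w ∈ Pr N, Ke q y z prim w * (g w.1 * g w.2) := by
  obtain ⟨h1, -, -⟩ := hK N q y z (Fg l g) (Fg_le l g hg) hN hq hyz hz
  unfold Df
  rw [h1 l hl hNl, add_sub_cancel_left]
  refine sum_congr rfl fun w hw => ?_
  obtain ⟨a1, a2, -⟩ := Pr_mem hw
  rw [mem_filter, mem_Icc] at a1 a2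
  exact Ke_Fg q y z l g hl w ⟨a1.1.1, by omega⟩ ⟨a2.1.1, by omega⟩

/-- the values -/
noncomputable def Gv (P : ℕ) (f : ℕ → ℂ) (χ : DirichletCharacter ℂ P) (n : ℕ) : ℂ := f n * χ (n : ZMod P)

/-- the first form -/
noncomputable def Ah (P N q y z : ℕ) (f : ℕ → ℂ) (χ : DirichletCharacter ℂ P) : ℂ :=
  ∑ w ∈ Pr N, (Ke q y z prim w * (f w.1 * (starRingEnd ℂ) (f w.2))) *
    (χ (w.1 : ZMod P) * (starRingEnd ℂ) (χ (w.2 : ZMod P)))

/-- the second form -/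
noncomputable def Bh (P N q y z : ℕ) (f : ℕ → ℂ) (χ : DirichletCharacter ℂ P) : ℂ :=
  ∑ w ∈ Pr N, (Ke q y z prim w * (f w.1 * f w.2)) * (χ (w.1 : ZMod P) * χ (w.2 : ZMod P))

lemma re_sum (P N q y z : ℕ) (f : ℕ → ℂ) (χ : DirichletCharacter ℂ P) :
    ∑ w ∈ Pr N, Ke q y z prim w * ((Gv P f χ w.1).re * (Gv P f χ w.2).re) =
      ((Ah P N q y z f χ).re + (Bh P N q y z f χ).re) / 2 := by
  unfold Ah Bh
  rw [Complex.re_sum, Complex.re_sum, ← sum_add_distrib, sum_div]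
  refine sum_congr rfl fun w _ => ?_
  unfold Gv
  have e1 : ∀ (k : ℝ) (a b c d : ℂ), ((k : ℂ) * (a * (starRingEnd ℂ) b) * (c * (starRingEnd ℂ) d)).re =
      k * ((a * c).re * (b * d).re + (a * c).im * (b * d).im) := by
    intro k a b c d
    have : (k : ℂ) * (a * (starRingEnd ℂ) b) * (c * (starRingEnd ℂ) d) =
        (k : ℂ) * ((a * c) * (starRingEnd ℂ) (b * d)) := by rw [map_mul]; ring
    rw [this, Complex.re_ofReal_mul, Complex.mul_re, Complex.conj_re, Complex.conj_im]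
    ring
  have e2 : ∀ (k : ℝ) (a b c d : ℂ), ((k : ℂ) * (a * b) * (c * d)).re =
      k * ((a * c).re * (b * d).re - (a * c).im * (b * d).im) := by
    intro k a b c d
    have : (k : ℂ) * (a * b) * (c * d) = (k : ℂ) * ((a * c) * (b * d)) := by ring
    rw [this, Complex.re_ofReal_mul, Complex.mul_re]
  rw [e1, e2]
  ring

lemma im_sum (P N q y z : ℕ) (f : ℕ → ℂ) (χ : DirichletCharacter ℂ P) :
    ∑ w ∈ Pr N, Ke q y z prim w * ((Gv P f χ w.1).im * (Gv P f χ w.2).im) =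
      ((Ah P N q y z f χ).re - (Bh P N q y z f χ).re) / 2 := by
  unfold Ah Bh
  rw [Complex.re_sum, Complex.re_sum, ← sum_sub_distrib, sum_div]
  refine sum_congr rfl fun w _ => ?_
  unfold Gv
  have e1 : ∀ (k : ℝ) (a b c d : ℂ), ((k : ℂ) * (a * (starRingEnd ℂ) b) * (c * (starRingEnd ℂ) d)).re =
      k * ((a * c).re * (b * d).re + (a * c).im * (b * d).im) := by
    intro k a b c d
    have : (k : ℂ) * (a * (starRingEnd ℂ) b) * (c * (starRingEnd ℂ) d) =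
        (k : ℂ) * ((a * c) * (starRingEnd ℂ) (b * d)) := by rw [map_mul]; ring
    rw [this, Complex.re_ofReal_mul, Complex.mul_re, Complex.conj_re, Complex.conj_im]
    ring
  have e2 : ∀ (k : ℝ) (a b c d : ℂ), ((k : ℂ) * (a * b) * (c * d)).re =
      k * ((a * c).re * (b * d).re - (a * c).im * (b * d).im) := by
    intro k a b c d
    have : (k : ℂ) * (a * b) * (c * d) = (k : ℂ) * ((a * c) * (b * d)) := by ring
    rw [this, Complex.re_ofReal_mul, Complex.mul_re]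
  rw [e1, e2]
  ring

/-- the exceptional characters for one interval -/
noncomputable def BadC (P N q y z l : ℕ) (f : ℕ → ℂ) (T : ℝ) : Finset (DirichletCharacter ℂ P) :=
  univ.filter (fun χ => T < |Df N q y z (Fg l (fun n => (Gv P f χ n).re)) l| ∨
    T < |Df N q y z (Fg l (fun n => (Gv P f χ n).im)) l|)

lemma Gv_le (P : ℕ) (f : ℕ → ℂ) (hf : ∀ n, ‖f n‖ ≤ 1) (χ : DirichletCharacter ℂ P) (n : ℕ) : ‖Gv P f χ n‖ ≤ 1 := by
  unfold Gv
  rw [norm_mul]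
  exact mul_le_one₀ (hf n) (norm_nonneg _) (DirichletCharacter.norm_le_one χ _)

lemma cheb4 {α : Type} (S : Finset α) (F : α → ℂ) (T M : ℝ) (hT : 0 < T) (h : ∑ x ∈ S, ‖F x‖ ^ 4 ≤ M) :
    ((S.filter (fun x => T < ‖F x‖)).card : ℝ) ≤ M / T ^ 4 := by
  rw [le_div_iff₀ (by positivity), ← nsmul_eq_mul, ← sum_const]
  refine le_trans (sum_le_sum (g := fun x => ‖F x‖ ^ 4) ?_)
    ((sum_le_sum_of_subset_of_nonneg (filter_subset _ _) (fun x _ _ => by positivity)).trans h)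
  intro x hx
  exact pow_le_pow_left₀ hT.le (mem_filter.1 hx).2.le 4

lemma badC_card (hK : KER) (P N q y z l : ℕ) [NeZero P] (T : ℝ) (f : ℕ → ℂ) (hf : ∀ n, ‖f n‖ ≤ 1) (hN : 2 ≤ N)
    (hq : 1 ≤ q) (hyz : y ≤ z) (hz : z ≤ N) (hNP : N ^ 4 < P) (hl : l.Prime) (hNl : N < l) (hT : 0 < T) :
    ((BadC P N q y z l f T).card : ℝ) ≤ P * (2592 * Lg N ^ 4) * (((z:ℝ) - y) ^ 4 / q ^ 2) / T ^ 4 := by
  obtain ⟨-, h2, -⟩ := hK N q y z prim prim_le hN hq hyz hz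
  have hcoef : ∀ c : ℕ × ℕ → ℂ, (∀ w, ‖c w‖ ≤ 1) →
      P * (81 * (∑ w ∈ Pr N, ‖(Ke q y z prim w : ℂ) * c w‖ ^ 2) ^ 2) ≤
      P * (1296 * Lg N ^ 4) * (((z:ℝ) - y) ^ 4 / q ^ 2) := by
    intro c hc
    have h3 : ∑ w ∈ Pr N, ‖(Ke q y z prim w : ℂ) * c w‖ ^ 2 ≤ 4 * Lg N ^ 2 * (((z:ℝ) - y) ^ 2 / q) := by
      refine le_trans (sum_le_sum fun w _ => ?_) h2
      rw [norm_mul, Complex.norm_real, mul_pow, Real.norm_eq_abs, sq_abs]
      have h4 : ‖c w‖ ^ 2 ≤ 1 := pow_le_one₀ (norm_nonneg _) (hc w)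
      calc Ke q y z prim w ^ 2 * ‖c w‖ ^ 2 ≤ Ke q y z prim w ^ 2 * 1 := by gcongr
        _ = _ := mul_one _
    have h8 : (∑ w ∈ Pr N, ‖(Ke q y z prim w : ℂ) * c w‖ ^ 2) ^ 2 ≤ (4 * Lg N ^ 2 * (((z:ℝ) - y) ^ 2 / q)) ^ 2 :=
      pow_le_pow_left₀ (sum_nonneg fun _ _ => by positivity) h3 2
    have h9 : (4 * Lg N ^ 2 * (((z:ℝ) - y) ^ 2 / q)) ^ 2 = 16 * Lg N ^ 4 * (((z:ℝ) - y) ^ 4 / q ^ 2) := by
      have hq0 : (q:ℝ) ≠ 0 := by exact_mod_cast (by omega : q ≠ 0)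
      field_simp
      ring
    rw [h9] at h8
    calc P * (81 * (∑ w ∈ Pr N, ‖(Ke q y z prim w : ℂ) * c w‖ ^ 2) ^ 2) ≤
        P * (81 * (16 * Lg N ^ 4 * (((z:ℝ) - y) ^ 4 / q ^ 2))) := by gcongr
      _ = _ := by ring
  have hA : ∑ χ : DirichletCharacter ℂ P, ‖Ah P N q y z f χ‖ ^ 4 ≤
      P * (1296 * Lg N ^ 4) * (((z:ℝ) - y) ^ 4 / q ^ 2) := by
    refine le_trans (bonA P N hNP (fun w => Ke q y z prim w * (f w.1 * (starRingEnd ℂ) (f w.2)))) (hcoef _ ?_)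
    intro w
    rw [norm_mul, Complex.norm_conj]
    exact mul_le_one₀ (hf _) (norm_nonneg _) (hf _)
  have hB : ∑ χ : DirichletCharacter ℂ P, ‖Bh P N q y z f χ‖ ^ 4 ≤
      P * (1296 * Lg N ^ 4) * (((z:ℝ) - y) ^ 4 / q ^ 2) := by
    refine le_trans (bonB P N hNP (fun w => Ke q y z prim w * (f w.1 * f w.2))) (hcoef _ ?_)
    intro w
    rw [norm_mul]
    exact mul_le_one₀ (hf _) (norm_nonneg _) (hf _)
  have hsub : BadC P N q y z l f T ⊆ (univ.filter (fun χ => T < ‖Ah P N q y z f χ‖)) ∪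
      (univ.filter (fun χ => T < ‖Bh P N q y z f χ‖)) := by
    intro χ hχ
    unfold BadC at hχ
    rw [mem_filter] at hχ
    rw [mem_union, mem_filter, mem_filter]
    by_contra hcon
    push Not at hcon
    have g1 : ‖Ah P N q y z f χ‖ ≤ T := hcon.1 (mem_univ _)
    have g2 : ‖Bh P N q y z f χ‖ ≤ T := hcon.2 (mem_univ _)
    have a1 := abs_le.1 ((Complex.abs_re_le_norm (Ah P N q y z f χ)).trans g1)
    have a2 := abs_le.1 ((Complex.abs_re_le_norm (Bh P N q y z f χ)).trans g2)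
    have b1 : |Df N q y z (Fg l (fun n => (Gv P f χ n).re)) l| ≤ T := by
      rw [Df_Fg hK N q y z l _ (fun n => (Complex.abs_re_le_norm _).trans (Gv_le P f hf χ n)) hN hq hyz hz hl hNl,
        re_sum, abs_le]
      constructor <;> linarith [a1.1, a1.2, a2.1, a2.2]
    have b2 : |Df N q y z (Fg l (fun n => (Gv P f χ n).im)) l| ≤ T := by
      rw [Df_Fg hK N q y z l _ (fun n => (Complex.abs_im_le_norm _).trans (Gv_le P f hf χ n)) hN hq hyz hz hl hNl,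
        im_sum, abs_le]
      constructor <;> linarith [a1.1, a1.2, a2.1, a2.2]
    rcases hχ.2 with h | h
    · exact absurd h (not_lt.2 b1)
    · exact absurd h (not_lt.2 b2)
  have hc1 : ((BadC P N q y z l f T).card : ℝ) ≤
      (((univ : Finset (DirichletCharacter ℂ P)).filter (fun χ => T < ‖Ah P N q y z f χ‖)).card : ℝ) +
      (((univ : Finset (DirichletCharacter ℂ P)).filter (fun χ => T < ‖Bh P N q y z f χ‖)).card : ℝ) := by
    exact_mod_cast (card_le_card hsub).trans (card_union_le _ _)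
  have hc2 := cheb4 univ (fun χ => Ah P N q y z f χ) T _ hT hA
  have hc3 := cheb4 univ (fun χ => Bh P N q y z f χ) T _ hT hB
  refine hc1.trans ((add_le_add hc2 hc3).trans (le_of_eq ?_))
  ring

end Pool.Agent.L0h54.CV
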