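import Pool.Agent.L0h54.CV.B

set_option autoImplicit false

/-! The exceptional characters for one scale and one modulus. -/

namespace Pool.Agent.L0h54.CV

open Finset
open scoped Classical
open Pool.Agent.L0h54.HV (Pr Pr_mem Ke Vo Dg Df KER Lg Lg_nonneg Lg_le)

lemma cuu {β : Type*} {inst : DecidableEq β} (s t : Finset β) :
    (@Union.union (Finset β) (@Finset.instUnion β inst) s t).card ≤ s.card + t.card := card_union_le s t

lemma cbu {α β : Type*} {inst : DecidableEq β} (s : Finset α) (t : α → Finset β) :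
    (@Finset.biUnion α β inst s t).card ≤ ∑ a ∈ s, (t a).card := card_biUnion_le

lemma mbu {α β : Type*} {inst : DecidableEq β} {s : Finset α} {t : α → Finset β} {b : β} (a : α) (ha : a ∈ s)
    (hb : b ∈ t a) : b ∈ @Finset.biUnion α β inst s t := mem_biUnion.2 ⟨a, ha, hb⟩

lemma uin {β : Type*} {inst : DecidableEq β} {s t : Finset β} {b : β} (h : b ∈ s ∨ b ∈ t) :
    b ∈ @Union.union (Finset β) (@Finset.instUnion β inst) s t := mem_union.2 h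

/-- the exceptional characters for one scale and one modulus: short intervals -/
noncomputable def BadU (r j0 P q l : ℕ) (f : ℕ → ℂ) (T : ℝ) : Finset (DirichletCharacter ℂ P) :=
  (range (j0 + 1)).biUnion fun j => (range (2 ^ (r - j))).biUnion fun u =>
    BadC P (2 ^ r) q (u * 2 ^ j) ((u + 1) * 2 ^ j) l f T

/-- the exceptional characters for one scale and one modulus: initial intervals -/
noncomputable def BadV (r j0 P q l : ℕ) (f : ℕ → ℂ) (T : ℝ) : Finset (DirichletCharacter ℂ P) :=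
  (range (2 ^ (r - j0) + 1)).biUnion fun u => BadC P (2 ^ r) q 0 (u * 2 ^ j0) l f T

/-- the exceptional characters for one scale and one modulus -/
noncomputable def BadD (r j0 P q l : ℕ) (f : ℕ → ℂ) (T : ℝ) : Finset (DirichletCharacter ℂ P) :=
  BadU r j0 P q l f T ∪ BadV r j0 P q l f T

lemma badD_card (hK : KER) (P r j0 q l : ℕ) [NeZero P] (T : ℝ) (f : ℕ → ℂ) (hf : ∀ n, ‖f n‖ ≤ 1) (hr : 1 ≤ r)
    (hj : j0 ≤ r) (hq : 1 ≤ q) (hNP : (2 ^ r) ^ 4 < P) (hl : l.Prime) (hrl : 2 ^ r < l) (hT : 0 < T) :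
    ((BadD r j0 P q l f T).card : ℝ) ≤
      P * (7776 * ((r:ℝ) + 1) ^ 13) * (((2:ℝ) ^ r) ^ 4 * 2 ^ (r - j0)) / (q ^ 2 * T ^ 4) := by
  have hN : 2 ≤ 2 ^ r := by
    calc 2 = 2 ^ 1 := rfl
      _ ≤ 2 ^ r := Nat.pow_le_pow_right (by norm_num) hr
  have hq0 : (0:ℝ) < q := by exact_mod_cast hq
  obtain ⟨A, hA⟩ : ∃ A : ℝ, A = P * (2592 * ((r:ℝ) + 1) ^ 12) / (q ^ 2 * T ^ 4) := ⟨_, rfl⟩
  have hA0 : 0 ≤ A := by rw [hA]; positivity
  have key : ∀ y z : ℕ, y ≤ z → z ≤ 2 ^ r → ((BadC P (2 ^ r) q y z l f T).card : ℝ) ≤ A * ((z:ℝ) - y) ^ 4 := by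
    intro y z hyz hz
    have h1 := badC_card hK P (2 ^ r) q y z l T f hf hN hq hyz hz hNP hl hrl hT
    have h2 : Lg (2 ^ r) ^ 4 ≤ ((r:ℝ) + 1) ^ 12 := by
      calc Lg (2 ^ r) ^ 4 ≤ (((r:ℝ) + 1) ^ 3) ^ 4 := pow_le_pow_left₀ (Lg_nonneg _) (Lg_le r) 4
        _ = _ := by rw [← pow_mul]
    have h3 : 0 ≤ ((z:ℝ) - y) ^ 4 := by positivity
    calc ((BadC P (2 ^ r) q y z l f T).card : ℝ) ≤
        P * (2592 * Lg (2 ^ r) ^ 4) * (((z:ℝ) - y) ^ 4 / q ^ 2) / T ^ 4 := h1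
      _ ≤ P * (2592 * ((r:ℝ) + 1) ^ 12) * (((z:ℝ) - y) ^ 4 / q ^ 2) / T ^ 4 := by gcongr
      _ = A * ((z:ℝ) - y) ^ 4 := by rw [hA]; field_simp
  obtain ⟨R, hR⟩ : ∃ R : ℝ, R = (2:ℝ) ^ r := ⟨_, rfl⟩
  have hR1 : 1 ≤ R := by rw [hR]; exact one_le_pow₀ (by norm_num)
  have p1 : ((BadU r j0 P q l f T).card : ℝ) ≤ A * (((r:ℝ) + 1) * R ^ 4) := by
    have h1 : ((BadU r j0 P q l f T).card : ℝ) ≤
        ∑ j ∈ range (j0 + 1), ∑ u ∈ range (2 ^ (r - j)),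
          ((BadC P (2 ^ r) q (u * 2 ^ j) ((u + 1) * 2 ^ j) l f T).card : ℝ) := by
      have : (BadU r j0 P q l f T).card ≤
        ∑ j ∈ range (j0 + 1), ∑ u ∈ range (2 ^ (r - j)),
          (BadC P (2 ^ r) q (u * 2 ^ j) ((u + 1) * 2 ^ j) l f T).card :=
        by unfold BadU; exact (cbu _ _).trans (sum_le_sum fun j _ => cbu _ _)
      exact_mod_cast this
    have h2 : ∀ j ∈ range (j0 + 1), ∑ u ∈ range (2 ^ (r - j)),
        ((BadC P (2 ^ r) q (u * 2 ^ j) ((u + 1) * 2 ^ j) l f T).card : ℝ) ≤ A * R ^ 4 := by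
      intro j hj'
      have hjr : j ≤ r := by have := mem_range.mp hj'; omega
      have h3 : ∀ u ∈ range (2 ^ (r - j)),
          ((BadC P (2 ^ r) q (u * 2 ^ j) ((u + 1) * 2 ^ j) l f T).card : ℝ) ≤ A * ((2:ℝ) ^ j) ^ 4 := by
        intro u hu
        have hu' := mem_range.mp hu
        have h4 := key (u * 2 ^ j) ((u + 1) * 2 ^ j) (Nat.mul_le_mul_right _ (by omega)) (by
          calc (u + 1) * 2 ^ j ≤ 2 ^ (r - j) * 2 ^ j := Nat.mul_le_mul_right _ (by omega)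
            _ = 2 ^ r := by rw [← pow_add]; congr 1; omega)
        refine h4.trans (le_of_eq ?_)
        push_cast
        ring
      refine (sum_le_sum h3).trans ?_
      rw [sum_const, card_range, nsmul_eq_mul]
      have e : (2:ℝ) ^ (r - j) * 2 ^ j = R := by rw [← pow_add, hR]; congr 1; omega
      have h5 : (2:ℝ) ^ j ≤ R := by rw [hR]; exact pow_le_pow_right₀ (by norm_num) hjr
      calc ((2 ^ (r - j) : ℕ) : ℝ) * (A * ((2:ℝ) ^ j) ^ 4) =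
          A * (((2:ℝ) ^ (r - j) * 2 ^ j) * ((2:ℝ) ^ j) ^ 3) := by push_cast; ring
        _ = A * (R * ((2:ℝ) ^ j) ^ 3) := by rw [e]
        _ ≤ A * (R * R ^ 3) := by gcongr
        _ = A * R ^ 4 := by ring
    refine h1.trans ((sum_le_sum h2).trans ?_)
    rw [sum_const, card_range, nsmul_eq_mul]
    have h6 : ((j0 + 1 : ℕ) : ℝ) ≤ (r:ℝ) + 1 := by exact_mod_cast Nat.succ_le_succ hj
    calc ((j0 + 1 : ℕ) : ℝ) * (A * R ^ 4) ≤ ((r:ℝ) + 1) * (A * R ^ 4) := by gcongr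
      _ = _ := by ring
  have p2 : ((BadV r j0 P q l f T).card : ℝ) ≤
      A * ((2 * 2 ^ (r - j0)) * R ^ 4) := by
    have h1 : ((BadV r j0 P q l f T).card : ℝ) ≤
        ∑ u ∈ range (2 ^ (r - j0) + 1), ((BadC P (2 ^ r) q 0 (u * 2 ^ j0) l f T).card : ℝ) := by
      have h1n : (BadV r j0 P q l f T).card ≤
          ∑ u ∈ range (2 ^ (r - j0) + 1), (BadC P (2 ^ r) q 0 (u * 2 ^ j0) l f T).card := by
        unfold BadV
        exact cbu _ _
      exact_mod_cast h1n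
    have h2 : ∀ u ∈ range (2 ^ (r - j0) + 1), ((BadC P (2 ^ r) q 0 (u * 2 ^ j0) l f T).card : ℝ) ≤ A * R ^ 4 := by
      intro u hu
      have hu' := mem_range.mp hu
      have h3 : u * 2 ^ j0 ≤ 2 ^ r := by
        calc u * 2 ^ j0 ≤ 2 ^ (r - j0) * 2 ^ j0 := Nat.mul_le_mul_right _ (by omega)
          _ = 2 ^ r := by rw [← pow_add]; congr 1; omega
      refine (key 0 (u * 2 ^ j0) (by omega) h3).trans ?_
      apply mul_le_mul_of_nonneg_left _ hA0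
      apply pow_le_pow_left₀
      · push_cast
        have : (0:ℝ) ≤ (u:ℝ) * 2 ^ j0 := by positivity
        linarith
      · have h4 : ((u * 2 ^ j0 : ℕ) : ℝ) ≤ R := by rw [hR]; exact_mod_cast h3
        have h5 : ((0:ℕ):ℝ) = 0 := by norm_num
        rw [h5]
        linarith
    refine h1.trans ((sum_le_sum h2).trans ?_)
    rw [sum_const, card_range, nsmul_eq_mul]
    have h6 : ((2 ^ (r - j0) + 1 : ℕ) : ℝ) ≤ 2 * 2 ^ (r - j0) := by
      push_cast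
      have : (1:ℝ) ≤ 2 ^ (r - j0) := one_le_pow₀ (by norm_num)
      linarith
    calc ((2 ^ (r - j0) + 1 : ℕ) : ℝ) * (A * R ^ 4) ≤ (2 * 2 ^ (r - j0)) * (A * R ^ 4) := by gcongr
      _ = _ := by ring
  have p3 : ((BadD r j0 P q l f T).card : ℝ) ≤ A * (((r:ℝ) + 1) * R ^ 4) + A * ((2 * 2 ^ (r - j0)) * R ^ 4) := by
    have h1 : ((BadD r j0 P q l f T).card : ℝ) ≤ ((BadU r j0 P q l f T).card : ℝ) +
      ((BadV r j0 P q l f T).card : ℝ) := by
      have h0 : (BadD r j0 P q l f T).card ≤ (BadU r j0 P q l f T).card + (BadV r j0 P q l f T).card := by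
        unfold BadD
        exact cuu _ _
      exact_mod_cast h0
    linarith
  refine p3.trans ?_
  have h7 : (1:ℝ) ≤ 2 ^ (r - j0) := one_le_pow₀ (by norm_num)
  have h8 : (0:ℝ) ≤ r := Nat.cast_nonneg r
  have h9 : ((r:ℝ) + 1) * R ^ 4 + (2 * 2 ^ (r - j0)) * R ^ 4 ≤ 3 * (((r:ℝ) + 1) * (R ^ 4 * 2 ^ (r - j0))) := by
    have hR4 : 0 ≤ R ^ 4 := by positivity
    have : ((r:ℝ) + 1) + 2 * 2 ^ (r - j0) ≤ 3 * (((r:ℝ) + 1) * 2 ^ (r - j0)) := by
      nlinarith [mul_nonneg h8 (by linarith : (0:ℝ) ≤ 2 ^ (r - j0) - 1)]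
    calc ((r:ℝ) + 1) * R ^ 4 + (2 * 2 ^ (r - j0)) * R ^ 4 = (((r:ℝ) + 1) + 2 * 2 ^ (r - j0)) * R ^ 4 := by ring
      _ ≤ (3 * (((r:ℝ) + 1) * 2 ^ (r - j0))) * R ^ 4 := by gcongr
      _ = _ := by ring
  calc A * (((r:ℝ) + 1) * R ^ 4) + A * ((2 * 2 ^ (r - j0)) * R ^ 4) =
      A * (((r:ℝ) + 1) * R ^ 4 + (2 * 2 ^ (r - j0)) * R ^ 4) := by ring
    _ ≤ A * (3 * (((r:ℝ) + 1) * (R ^ 4 * 2 ^ (r - j0)))) := by gcongr
    _ = P * (7776 * ((r:ℝ) + 1) ^ 13) * (R ^ 4 * 2 ^ (r - j0)) / (q ^ 2 * T ^ 4) := by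
        rw [hA]
        field_simp
        ring
    _ = _ := by rw [hR]

end Pool.Agent.L0h54.CV
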