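import Pool.Agent.L0h54.CV.C
import Pool.Agent.L0h54.HV.Fin4

set_option autoImplicit false

/-! The exceptional characters for all scales. -/

namespace Pool.Agent.L0h54.CV

open Finset Filter
open scoped Classical Topology
open Pool.Agent.L0h54.HV (Pr Pr_mem Ke Vo Dg Df KER Lg Lg_nonneg Lg_le Tr jr Tr_pos jr_le two_sub_jr sum_inv_le BadQ BadI)
open Pool.Agent.L0h54.GC (asym)

/-- the moduli -/
noncomputable def Qc (ε : ℝ) (r : ℕ) : Finset ℕ :=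
  (Icc 1 (2 ^ r)).filter (fun q : ℕ => (2:ℝ) ^ (ε * ((r:ℝ) - 1)) ≤ q)

/-- the exceptional characters for one scale -/
noncomputable def Ec (ε κ : ℝ) (P r l : ℕ) (f : ℕ → ℂ) : Finset (DirichletCharacter ℂ P) :=
  (Qc ε r).biUnion fun q => BadD r (jr κ r) P q l f (Tr κ r)

theorem scaleC (hK : KER) (ε κ : ℝ) (hε0 : 0 < ε) (hε1 : ε ≤ 1) (hκ0 : 0 < κ) (hκ1 : κ ≤ 1) (P r l : ℕ) [NeZero P]
    (f : ℕ → ℂ) (hf : ∀ n, ‖f n‖ ≤ 1) (hr : 1 ≤ r) (hNP : (2 ^ r) ^ 4 < P) (hl : l.Prime) (hrl : 2 ^ r < l) :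
    ((Ec ε κ P r l f).card : ℝ) ≤ P * (31104 * ((r:ℝ) + 1) ^ 14) * ((2:ℝ) ^ r) ^ (5 * κ - ε) := by
  obtain ⟨R, hR⟩ : ∃ R : ℝ, R = (2:ℝ) ^ r := ⟨_, rfl⟩
  have hR1 : 1 ≤ R := by rw [hR]; exact one_le_pow₀ (by norm_num)
  have hRp : 0 < R := by linarith
  obtain ⟨Y, hY⟩ : ∃ Y : ℝ, Y = (2:ℝ) ^ (ε * ((r:ℝ) - 1)) := ⟨_, rfl⟩
  have hYp : 0 < Y := by rw [hY]; positivity
  have hTe : R ^ 4 / Tr κ r ^ 4 = R ^ (4 * κ) := by
    have e1 : Tr κ r = R ^ (1 - κ) := by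
      unfold Tr
      rw [hR, ← Real.rpow_natCast, ← Real.rpow_mul (by norm_num), mul_comm]
    rw [e1, ← Real.rpow_natCast R 4, ← Real.rpow_natCast (R ^ (1 - κ)) 4, ← Real.rpow_mul hRp.le,
      ← Real.rpow_sub hRp]
    congr 1
    push_cast
    ring
  have hTp := Tr_pos κ r
  have hone : ∀ q ∈ Qc ε r, ((BadD r (jr κ r) P q l f (Tr κ r)).card : ℝ) ≤
      (P * (15552 * ((r:ℝ) + 1) ^ 13) * R ^ (5 * κ) / Y) * (1 / q) := by
    intro q hq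
    unfold Qc at hq
    rw [mem_filter, mem_Icc] at hq
    obtain ⟨⟨hq1', hq2⟩, hq3⟩ := hq
    have hqpos : (0:ℝ) < q := by exact_mod_cast hq1'
    have h3 := badD_card hK P r (jr κ r) q l (Tr κ r) f hf hr (jr_le κ r hκ0.le hκ1) hq1' hNP hl hrl hTp
    rw [← hR] at h3
    rw [← hY] at hq3
    have h4 := two_sub_jr κ r hκ0.le hκ1
    rw [← hR] at h4
    have e2 : P * (7776 * ((r:ℝ) + 1) ^ 13) * (R ^ 4 * 2 ^ (r - jr κ r)) / (q ^ 2 * Tr κ r ^ 4) =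
        P * (7776 * ((r:ℝ) + 1) ^ 13) * ((R ^ 4 / Tr κ r ^ 4) * 2 ^ (r - jr κ r)) / q ^ 2 := by
      field_simp
    rw [e2, hTe] at h3
    have h5 : R ^ (4 * κ) * 2 ^ (r - jr κ r) ≤ 2 * R ^ (5 * κ) := by
      calc R ^ (4 * κ) * 2 ^ (r - jr κ r) ≤ R ^ (4 * κ) * (2 * R ^ κ) := by gcongr
        _ = 2 * (R ^ (4 * κ) * R ^ κ) := by ring
        _ = 2 * R ^ (5 * κ) := by rw [← Real.rpow_add hRp]; congr 2; ring
    calc ((BadD r (jr κ r) P q l f (Tr κ r)).card : ℝ) ≤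
        P * (7776 * ((r:ℝ) + 1) ^ 13) * (R ^ (4 * κ) * 2 ^ (r - jr κ r)) / q ^ 2 := h3
      _ ≤ P * (7776 * ((r:ℝ) + 1) ^ 13) * (2 * R ^ (5 * κ)) / q ^ 2 := by gcongr
      _ ≤ P * (7776 * ((r:ℝ) + 1) ^ 13) * (2 * R ^ (5 * κ)) / (Y * q) := by
          rw [sq (q:ℝ)]
          gcongr
      _ = _ := by
          field_simp
          ring
  have hsum : ((Ec ε κ P r l f).card : ℝ) ≤
      (P * (15552 * ((r:ℝ) + 1) ^ 13) * R ^ (5 * κ) / Y) * ((r:ℝ) + 1) := by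
    have h3 : ((Ec ε κ P r l f).card : ℝ) ≤ ∑ q ∈ Qc ε r, ((BadD r (jr κ r) P q l f (Tr κ r)).card : ℝ) := by
      have h3n : (Ec ε κ P r l f).card ≤ ∑ q ∈ Qc ε r, (BadD r (jr κ r) P q l f (Tr κ r)).card := by
        unfold Ec
        exact cbu _ _
      exact_mod_cast h3n
    refine h3.trans ((sum_le_sum hone).trans ?_)
    rw [← mul_sum]
    apply mul_le_mul_of_nonneg_left _ (by positivity)
    refine le_trans ?_ (sum_inv_le r)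
    apply sum_le_sum_of_subset_of_nonneg
    · unfold Qc; exact filter_subset _ _
    · intro q _ _; positivity
  refine hsum.trans ?_
  rw [← hR]
  have e4 : Y = R ^ ε * 2 ^ (-ε) := by
    rw [hY, hR, ← Real.rpow_natCast, ← Real.rpow_mul (by norm_num), ← Real.rpow_add (by norm_num)]
    congr 1
    ring
  have h6 : (1:ℝ) / 2 ≤ 2 ^ (-ε) := by
    have : (2:ℝ) ^ (-(1:ℝ)) ≤ 2 ^ (-ε) := Real.rpow_le_rpow_of_exponent_le (by norm_num) (by linarith)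
    rw [Real.rpow_neg (by norm_num), Real.rpow_one] at this
    linarith
  have h7 : R ^ (5 * κ) / Y ≤ 2 * R ^ (5 * κ - ε) := by
    rw [div_le_iff₀ hYp, e4]
    have h8 : R ^ (5 * κ - ε) * R ^ ε = R ^ (5 * κ) := by rw [← Real.rpow_add hRp]; congr 1; ring
    have h9 : 0 < R ^ (5 * κ) := by positivity
    calc R ^ (5 * κ) = 2 * R ^ (5 * κ) * (1 / 2) := by ring
      _ ≤ 2 * R ^ (5 * κ) * 2 ^ (-ε) := by gcongr
      _ = 2 * R ^ (5 * κ - ε) * (R ^ ε * 2 ^ (-ε)) := by rw [← h8]; ring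
  calc P * (15552 * ((r:ℝ) + 1) ^ 13) * R ^ (5 * κ) / Y * ((r:ℝ) + 1) =
      P * (15552 * ((r:ℝ) + 1) ^ 14) * (R ^ (5 * κ) / Y) := by ring
    _ ≤ P * (15552 * ((r:ℝ) + 1) ^ 14) * (2 * R ^ (5 * κ - ε)) := by gcongr
    _ = _ := by ring

theorem all_scalesC (hK : KER) (ε κ : ℝ) (hε0 : 0 < ε) (hε1 : ε ≤ 1) (hκ : κ = ε ^ 2 / 20) :
    ∃ c : ℝ, 0 < c ∧ c ≤ 1 / 2 ∧ ∃ P0 : ℕ, ∀ P : ℕ, P0 ≤ P → ∀ [NeZero P], ∀ l : ℕ, l.Prime → P < l →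
      ∀ f : ℕ → ℂ, (∀ n, ‖f n‖ ≤ 1) →
      ∃ E : Finset (DirichletCharacter ℂ P), (E.card : ℝ) ≤ (P:ℝ) ^ (1 - c) ∧
        ∀ χ : DirichletCharacter ℂ P, χ ∉ E → ∀ r q : ℕ, (P:ℝ) ^ ε ≤ (2:ℝ) ^ r → (2 ^ r) ^ 4 < P → 1 ≤ q →
          q ≤ 2 ^ r → (2:ℝ) ^ (ε * ((r:ℝ) - 1)) ≤ q → χ ∉ BadD r (jr κ r) P q l f (Tr κ r) := by
  have he2 : 0 < ε ^ 2 := by positivity
  have he21 : ε ^ 2 ≤ ε := by nlinarith
  have hκ0 : 0 < κ := by rw [hκ]; positivity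
  have hκ1 : κ ≤ 1 := by rw [hκ]; linarith
  obtain ⟨c', hc'⟩ : ∃ c' : ℝ, c' = ε ^ 2 / 200 := ⟨_, rfl⟩
  have hc'0 : 0 < c' := by rw [hc']; positivity
  have hev := (((tendsto_rpow_atTop hε0).comp
      (tendsto_natCast_atTop_atTop (R := ℝ))).eventually_ge_atTop 16).and
    ((asym 1 c' hc'0).and ((asym 31104 c' hc'0).and (eventually_ge_atTop 4)))
  obtain ⟨P0, hP0⟩ := eventually_atTop.mp hev
  refine ⟨ε ^ 2 / 2, by positivity, by linarith, P0, ?_⟩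
  intro P hP _ l hl hPl f hf
  obtain ⟨v1, v2, v3, hP4⟩ := hP0 P hP
  simp only [Function.comp] at v1
  obtain ⟨q0, hq0⟩ : ∃ q0 : ℝ, q0 = (P:ℝ) := ⟨_, rfl⟩
  have hq1 : 1 ≤ q0 := by rw [hq0]; exact_mod_cast (by omega : 1 ≤ P)
  have hqp : 0 < q0 := by linarith
  obtain ⟨ll, hll⟩ : ∃ ll : ℝ, ll = ((Nat.log 2 P : ℕ) : ℝ) + 1 := ⟨_, rfl⟩
  rw [← hll, ← hq0] at v2 v3
  rw [← hq0] at v1
  have hll1 : 1 ≤ ll := by
    rw [hll]; have : (0:ℝ) ≤ ((Nat.log 2 P : ℕ) : ℝ) := Nat.cast_nonneg _; linarith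
  have hqm : ∀ a b : ℝ, a ≤ b → q0 ^ a ≤ q0 ^ b := fun a b h =>
    Real.rpow_le_rpow_of_exponent_le hq1 h
  obtain ⟨RS, hRS⟩ : ∃ RS : Finset ℕ, RS = (Icc 1 (Nat.log 2 P)).filter
    (fun r => q0 ^ ε ≤ (2:ℝ) ^ r ∧ (2 ^ r) ^ 4 < P) := ⟨_, rfl⟩
  refine ⟨RS.biUnion (fun r => Ec ε κ P r l f), ?_, ?_⟩
  · have h1 : ∀ r ∈ RS, ((Ec ε κ P r l f).card : ℝ) ≤ 31104 * ll ^ 14 * q0 ^ (1 - 3 * ε ^ 2 / 4) := by
      intro r hr
      rw [hRS, mem_filter, mem_Icc] at hr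
      obtain ⟨⟨hr1, hr2⟩, hr3, hr4⟩ := hr
      have h2 : 2 ^ r < l := lt_of_le_of_lt (le_trans (Nat.le_self_pow (by norm_num) _) hr4.le) hPl
      have h3 := scaleC hK ε κ hε0 hε1 hκ0 hκ1 P r l f hf hr1 hr4 hl h2
      rw [← hq0] at h3
      have h4 : (r:ℝ) + 1 ≤ ll := by
        rw [hll]
        have : (r:ℝ) ≤ ((Nat.log 2 P : ℕ) : ℝ) := by exact_mod_cast hr2
        linarith
      have h5 : ((2:ℝ) ^ r) ^ (5 * κ - ε) ≤ q0 ^ (- (3 * ε ^ 2 / 4)) := by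
        have h6 : ((2:ℝ) ^ r) ^ (5 * κ - ε) ≤ (q0 ^ ε) ^ (5 * κ - ε) := by
          apply Real.rpow_le_rpow_of_nonpos (by positivity) hr3
          rw [hκ]; linarith
        refine h6.trans ?_
        rw [← Real.rpow_mul hqp.le]
        apply hqm
        rw [hκ]
        nlinarith
      have h7 : q0 * q0 ^ (- (3 * ε ^ 2 / 4)) = q0 ^ (1 - 3 * ε ^ 2 / 4) := by
        nth_rewrite 1 [← Real.rpow_one q0]
        rw [← Real.rpow_add hqp]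
        congr 1
      calc ((Ec ε κ P r l f).card : ℝ) ≤ q0 * (31104 * ((r:ℝ) + 1) ^ 14) * ((2:ℝ) ^ r) ^ (5 * κ - ε) := h3
        _ ≤ q0 * (31104 * ll ^ 14) * q0 ^ (- (3 * ε ^ 2 / 4)) := by gcongr
        _ = 31104 * ll ^ 14 * (q0 * q0 ^ (- (3 * ε ^ 2 / 4))) := by ring
        _ = _ := by rw [h7]
    have h3 : ((RS.biUnion (fun r => Ec ε κ P r l f)).card : ℝ) ≤ ∑ r ∈ RS, ((Ec ε κ P r l f).card : ℝ) := by
      have h3n : (RS.biUnion (fun r => Ec ε κ P r l f)).card ≤ ∑ r ∈ RS, (Ec ε κ P r l f).card :=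
        cbu _ _
      exact_mod_cast h3n
    refine h3.trans ((sum_le_sum h1).trans ?_)
    rw [sum_const, nsmul_eq_mul, ← hq0]
    have h4 : RS.card ≤ Nat.log 2 P := by
      rw [hRS]
      refine (card_filter_le _ _).trans ?_
      rw [Nat.card_Icc]; omega
    have h5 : (RS.card : ℝ) ≤ ll := by
      have : (RS.card : ℝ) ≤ ((Nat.log 2 P : ℕ) : ℝ) := by exact_mod_cast h4
      rw [hll]; linarith
    have m1 : ll ≤ q0 ^ c' := by rw [one_mul] at v2; exact v2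
    have m4 : ll ^ 14 ≤ q0 ^ (14 * c') := by
      calc ll ^ 14 ≤ (q0 ^ c') ^ 14 := pow_le_pow_left₀ (by linarith) m1 14
        _ = q0 ^ (14 * c') := by
            rw [← Real.rpow_natCast, ← Real.rpow_mul hqp.le]; congr 1; push_cast; ring
    calc (RS.card : ℝ) * (31104 * ll ^ 14 * q0 ^ (1 - 3 * ε ^ 2 / 4)) ≤
        ll * (31104 * ll ^ 14 * q0 ^ (1 - 3 * ε ^ 2 / 4)) := by gcongr
      _ = (31104 * ll) * ll ^ 14 * q0 ^ (1 - 3 * ε ^ 2 / 4) := by ring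
      _ ≤ q0 ^ c' * q0 ^ (14 * c') * q0 ^ (1 - 3 * ε ^ 2 / 4) := by gcongr
      _ = q0 ^ (c' + 14 * c' + (1 - 3 * ε ^ 2 / 4)) := by rw [← Real.rpow_add hqp, ← Real.rpow_add hqp]
      _ ≤ q0 ^ (1 - ε ^ 2 / 2) := by
          apply hqm
          rw [hc']
          linarith
  · intro χ hχ r q h1 h2 h3 h4 h5 hcon
    apply hχ
    have hr1 : 1 ≤ r := by
      by_contra hr
      have : r = 0 := by omega
      rw [this, pow_zero, ← hq0] at h1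
      linarith
    refine mbu r ?_ ?_
    · rw [hRS, mem_filter, mem_Icc]
      refine ⟨⟨hr1, Nat.le_log_of_pow_le (by norm_num) ?_⟩, by rw [hq0]; exact h1, h2⟩
      exact (Nat.le_self_pow (by norm_num) _).trans h2.le
    · unfold Ec
      refine mbu q ?_ hcon
      unfold Qc
      rw [mem_filter, mem_Icc]
      exact ⟨⟨h3, h4⟩, h5⟩

end Pool.Agent.L0h54.CV
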