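import Pool.Agent.L0h54.CV.D

set_option autoImplicit false

/-! The conclusion for the primes and squares (one character, one modulus). -/

namespace Pool.Agent.L0h54.CV

open Finset Filter
open scoped Classical Topology
open Pool.Agent.H306R2.RZ (js)
open Pool.Agent.L0h41.MQ (AP cf odd mem_AP)
open Pool.Agent.L0h54.HV (KER EVN MAX NCP Df Tr jr BadQ BadI Sa Mx det Mx_le)
open ArithmeticFunction (vonMangoldt)

lemma notBad (r j0 P q l : ℕ) (f : ℕ → ℂ) (T : ℝ) (χ : DirichletCharacter ℂ P) (g : ℕ → ℝ)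
    (hg : g = (fun n => (Gv P f χ n).re) ∨ g = (fun n => (Gv P f χ n).im))
    (h : χ ∉ BadD r j0 P q l f T) : l ∉ BadQ r j0 l q (Fg l g) T := by
  intro hl
  apply h
  have hin : ∀ y z : ℕ, l ∈ BadI (2 ^ r) l q y z (Fg l g) T → χ ∈ BadC P (2 ^ r) q y z l f T := by
    intro y z h1
    unfold BadI at h1
    rw [mem_filter] at h1
    unfold BadC
    rw [mem_filter]
    refine ⟨mem_univ _, ?_⟩
    rcases hg with hg | hg
    · left; rw [← hg]; exact h1.2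
    · right; rw [← hg]; exact h1.2
  unfold BadQ at hl
  unfold BadD
  rw [mem_union, mem_biUnion, mem_biUnion] at hl
  refine uin ?_
  rcases hl with ⟨j, hj, h1⟩ | ⟨u, hu, h1⟩
  · left
    rw [mem_biUnion] at h1
    obtain ⟨u, hu, h2⟩ := h1
    unfold BadU
    exact mbu j hj (mbu u hu (hin _ _ h2))
  · right
    unfold BadV
    exact mbu u hu (hin _ _ h1)

/-- the indicator function of the primes and squares -/
noncomputable def ps (n : ℕ) : ℝ := if n.Prime ∨ IsSquare n then 1 else 0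

lemma ps_nonneg (n : ℕ) : 0 ≤ ps n := by unfold ps; split_ifs <;> norm_num

lemma ps_le (n : ℕ) : ps n ≤ 1 := by unfold ps; split_ifs <;> norm_num

lemma ps_sq (n : ℕ) : ps n ^ 2 = ps n := by unfold ps; split_ifs <;> norm_num

/-- the sum over the primes and squares -/
noncomputable def Sp (P : ℕ) (f : ℕ → ℂ) (χ : DirichletCharacter ℂ P) (x q a : ℕ) : ℂ :=
  ∑ n ∈ AP 0 x q a, ((vonMangoldt n * ps n : ℝ) : ℂ) * Gv P f χ n

lemma Fg_eq (l : ℕ) (g : ℕ → ℝ) (n : ℕ) : Fg l g n = ps n * g n * js (n : ℤ) l := by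
  unfold Fg ps
  split_ifs <;> ring

lemma Sa_eq (l x q a : ℕ) (g : ℕ → ℝ) (hl : l.Prime) (hx : x < l) :
    Sa (Fg l g) l x q a = ∑ n ∈ AP 0 x q a, vonMangoldt n * ps n * g n := by
  unfold Sa
  refine sum_congr rfl fun n hn => ?_
  rw [mem_AP] at hn
  rw [Fg_eq]
  have := js_sq n l hl hn.1.1 (lt_of_le_of_lt hn.1.2 hx)
  calc vonMangoldt n * (ps n * g n * js (n : ℤ) l) * js (n : ℤ) l =
      vonMangoldt n * ps n * g n * js (n : ℤ) l ^ 2 := by ring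
    _ = _ := by rw [this, mul_one]

lemma Mx_eq (l x : ℕ) (g : ℕ → ℝ) (hl : l.Prime) (hx : x < l) :
    Mx (Fg l g) x = ∑ n ∈ Icc 1 x, (vonMangoldt n * ps n) ^ 2 * g n ^ 2 := by
  unfold Mx
  refine sum_congr rfl fun n hn => ?_
  rw [mem_Icc] at hn
  rw [Fg_eq]
  have := js_sq n l hl hn.1 (lt_of_le_of_lt hn.2 hx)
  calc (vonMangoldt n * (ps n * g n * js (n : ℤ) l)) ^ 2 =
      (vonMangoldt n * ps n) ^ 2 * g n ^ 2 * js (n : ℤ) l ^ 2 := by ring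
    _ = _ := by rw [this, mul_one]

lemma Sp_norm (P : ℕ) (f : ℕ → ℂ) (χ : DirichletCharacter ℂ P) (l x q a : ℕ) (hl : l.Prime) (hx : x < l) :
    ‖Sp P f χ x q a‖ ^ 2 = Sa (Fg l (fun n => (Gv P f χ n).re)) l x q a ^ 2 +
      Sa (Fg l (fun n => (Gv P f χ n).im)) l x q a ^ 2 := by
  rw [Sa_eq l x q a _ hl hx, Sa_eq l x q a _ hl hx, Complex.sq_norm, Complex.normSq_apply]
  unfold Sp
  rw [Complex.re_sum, Complex.im_sum]
  simp only [Complex.re_ofReal_mul, Complex.im_ofReal_mul]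
  ring

/-- the diagonal -/
noncomputable def Mp (P : ℕ) (f : ℕ → ℂ) (χ : DirichletCharacter ℂ P) (x : ℕ) : ℝ :=
  ∑ n ∈ Icc 1 x, (vonMangoldt n * ps n) ^ 2 * ‖Gv P f χ n‖ ^ 2

lemma Mp_eq (P : ℕ) (f : ℕ → ℂ) (χ : DirichletCharacter ℂ P) (l x : ℕ) (hl : l.Prime) (hx : x < l) :
    Mp P f χ x = Mx (Fg l (fun n => (Gv P f χ n).re)) x + Mx (Fg l (fun n => (Gv P f χ n).im)) x := by
  rw [Mx_eq l x _ hl hx, Mx_eq l x _ hl hx, ← sum_add_distrib]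
  unfold Mp
  refine sum_congr rfl fun n _ => ?_
  rw [Complex.sq_norm, Complex.normSq_apply]
  ring

theorem detS (hE : EVN) (hM : MAX) (hN : NCP) (ε κ : ℝ) (hε0 : 0 < ε) (hε1 : ε ≤ 1) (hκ : κ = ε ^ 2 / 20) :
    ∃ K0 : ℝ, 0 < K0 ∧ ∀ (r q x P l : ℕ) (f : ℕ → ℂ) (χ : DirichletCharacter ℂ P), (∀ n, ‖f n‖ ≤ 1) → 1 ≤ r →
      x ≤ 2 ^ r → 2 ^ r ≤ 2 * x → 1 ≤ q → q ≤ x → (x:ℝ) ^ ε ≤ q → l.Prime → 2 ^ r < l →
      χ ∉ BadD r (jr κ r) P q l f (Tr κ r) →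
      |∑ a ∈ (range q).filter (fun a => Nat.Coprime a q), ‖Sp P f χ x q a‖ ^ 2 - Mp P f χ x| ≤
        2 * K0 * (((r:ℝ) + 1) ^ 6 * ((2:ℝ) ^ r) ^ (1 - κ / 2)) ∧
      Mp P f χ x ≤ 2 * (((r:ℝ) + 1) ^ 2 * (2:ℝ) ^ r) := by
  obtain ⟨K0, hK0, hdet⟩ := det hE hM hN ε κ hε0 hε1 hκ
  refine ⟨K0, hK0, ?_⟩
  intro r q x P l f χ hf hr hx1 hx2 hq1 hqx hxq hl hrl hχ
  have hxl : x < l := lt_of_le_of_lt hx1 hrl
  have hl2 : l ≠ 2 := by
    have : 2 ^ 1 ≤ 2 ^ r := Nat.pow_le_pow_right (by norm_num) hr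
    omega
  have hb1 := notBad r (jr κ r) P q l f (Tr κ r) χ _ (Or.inl rfl) hχ
  have hb2 := notBad r (jr κ r) P q l f (Tr κ r) χ _ (Or.inr rfl) hχ
  have g1 := Fg_le l _ (fun n => (Complex.abs_re_le_norm _).trans (Gv_le P f hf χ n))
  have g2 := Fg_le l _ (fun n => (Complex.abs_im_le_norm _).trans (Gv_le P f hf χ n))
  have h1 := hdet r q x l l _ g1 hr hx1 hx2 hq1 hqx hxq hl hl2 hrl le_rfl hb1
  have h2 := hdet r q x l l _ g2 hr hx1 hx2 hq1 hqx hxq hl hl2 hrl le_rfl hb2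
  constructor
  · rw [Mp_eq P f χ l x hl hxl]
    simp only [Sp_norm P f χ l x q _ hl hxl]
    rw [sum_add_distrib]
    rw [abs_le] at h1 h2 ⊢
    constructor <;> linarith [h1.1, h1.2, h2.1, h2.2]
  · rw [Mp_eq P f χ l x hl hxl]
    have h3 := Mx_le _ g1 x r hx1
    have h4 := Mx_le _ g2 x r hx1
    linarith

end Pool.Agent.L0h54.CV
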