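import Pool.Agent.L0h54.CV.E

set_option autoImplicit false

/-! The cubes and the higher odd powers. -/

namespace Pool.Agent.L0h54.CV

open Finset Filter
open scoped Classical Topology
open Pool.Agent.L0h41.MQ (AP mem_AP)
open Pool.Agent.L0h54.HV (KER EVN MAX NCP Tr jr)
open ArithmeticFunction (vonMangoldt)

/-- the sum over the residue class -/
noncomputable def Psi (P : ℕ) (f : ℕ → ℂ) (χ : DirichletCharacter ℂ P) (x q a : ℕ) : ℂ :=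
  ∑ n ∈ AP 0 x q a, (vonMangoldt n : ℂ) * Gv P f χ n

/-- the diagonal -/
noncomputable def Mc (P : ℕ) (f : ℕ → ℂ) (χ : DirichletCharacter ℂ P) (x : ℕ) : ℝ :=
  ∑ n ∈ Icc 1 x, vonMangoldt n ^ 2 * ‖Gv P f χ n‖ ^ 2

/-- the sum over the other prime powers -/
noncomputable def K3 (x : ℕ) : ℝ := ∑ n ∈ Icc 1 x, vonMangoldt n * (1 - ps n)

lemma log_le_r (x r : ℕ) (h1 : 1 ≤ x) (h : x ≤ 2 ^ r) : Real.log x ≤ (r:ℝ) + 1 := by
  have h4 : Real.log x ≤ Real.log ((2 ^ r : ℕ) : ℝ) :=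
    Real.log_le_log (by exact_mod_cast h1) (by exact_mod_cast h)
  push_cast at h4
  rw [Real.log_pow] at h4
  have h5 := Real.log_two_lt_d9
  have : (0:ℝ) ≤ r := Nat.cast_nonneg r
  nlinarith

lemma K3_le (x r : ℕ) (h : x ≤ 2 ^ r) : K3 x ≤ ((r:ℝ) + 1) ^ 2 * ((2:ℝ) ^ r) ^ ((1:ℝ) / 3) := by
  obtain ⟨R, hR⟩ : ∃ R : ℝ, R = (2:ℝ) ^ r := ⟨_, rfl⟩
  have hR1 : 1 ≤ R := by rw [hR]; exact one_le_pow₀ (by norm_num)
  have hR0 : 0 < R := by linarith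
  obtain ⟨T, hT⟩ : ∃ T, T = (Icc 1 x).filter (fun n => IsPrimePow n ∧ ¬ (n.Prime ∨ IsSquare n)) := ⟨_, rfl⟩
  have h1 : K3 x = ∑ n ∈ T, vonMangoldt n := by
    unfold K3
    rw [hT, sum_filter]
    refine sum_congr rfl fun n _ => ?_
    unfold ps
    by_cases h2 : n.Prime ∨ IsSquare n
    · rw [if_pos h2, if_neg (fun h3 => h3.2 h2)]
      ring
    · rw [if_neg h2]
      by_cases h3 : IsPrimePow n
      · rw [if_pos ⟨h3, h2⟩]
        ring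
      · rw [if_neg (fun h4 => h3 h4.1), ArithmeticFunction.vonMangoldt_eq_zero_iff.mpr h3]
        ring
  have hcard : (T.card : ℝ) ≤ R ^ ((1:ℝ) / 3) * ((r:ℝ) + 1) := by
    have h2 : T ⊆ (Icc 1 ⌊R ^ ((1:ℝ) / 3)⌋₊ ×ˢ range (r + 1)).image (fun w => w.1 ^ w.2) := by
      intro n hn
      rw [hT, mem_filter, mem_Icc] at hn
      obtain ⟨⟨h3, h4⟩, h5, h6⟩ := hn
      obtain ⟨p, k, hp, hk, rfl⟩ := (isPrimePow_nat_iff _).mp h5
      rw [mem_image]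
      refine ⟨(p, k), ?_, rfl⟩
      rw [mem_product, mem_Icc, mem_range]
      have hk3 : 3 ≤ k := by
        by_contra hcon
        apply h6
        interval_cases k
        · left; rw [pow_one]; exact hp
        · right; exact ⟨p, by rw [sq]⟩
      refine ⟨⟨hp.one_lt.le, ?_⟩, ?_⟩
      · apply Nat.le_floor
        have h7 : p ^ 3 ≤ 2 ^ r := (Nat.pow_le_pow_right hp.pos hk3).trans (h4.trans h)
        have h8 : ((p:ℝ) ^ 3) ≤ R := by rw [hR]; exact_mod_cast h7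
        have h9 : (p:ℝ) = ((p:ℝ) ^ 3) ^ ((1:ℝ) / 3) := by
          rw [← Real.rpow_natCast, ← Real.rpow_mul (by positivity)]
          norm_num
        rw [h9]
        exact Real.rpow_le_rpow (by positivity) h8 (by norm_num)
      · have h7 : 2 ^ k ≤ 2 ^ r := (Nat.pow_le_pow_left hp.two_le k).trans (h4.trans h)
        have := (Nat.pow_le_pow_iff_right (by norm_num : 1 < 2)).mp h7
        show k < r + 1
        omega
    have h3 : T.card ≤ ⌊R ^ ((1:ℝ) / 3)⌋₊ * (r + 1) := by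
      refine (card_le_card h2).trans (card_image_le.trans (le_of_eq ?_))
      rw [card_product, Nat.card_Icc, Nat.add_sub_cancel, card_range]
    calc (T.card : ℝ) ≤ ((⌊R ^ ((1:ℝ) / 3)⌋₊ * (r + 1) : ℕ) : ℝ) := by exact_mod_cast h3
      _ = (⌊R ^ ((1:ℝ) / 3)⌋₊ : ℝ) * ((r:ℝ) + 1) := by push_cast; ring
      _ ≤ _ := by
          gcongr
          exact Nat.floor_le (by positivity)
  rw [h1, ← hR]
  calc ∑ n ∈ T, vonMangoldt n ≤ ∑ n ∈ T, ((r:ℝ) + 1) := by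
        refine sum_le_sum fun n hn => ?_
        rw [hT, mem_filter, mem_Icc] at hn
        exact ArithmeticFunction.vonMangoldt_le_log.trans (log_le_r n r hn.1.1 (hn.1.2.trans h))
    _ = (T.card : ℝ) * ((r:ℝ) + 1) := by rw [sum_const, nsmul_eq_mul]
    _ ≤ (R ^ ((1:ℝ) / 3) * ((r:ℝ) + 1)) * ((r:ℝ) + 1) := by gcongr
    _ = _ := by ring

lemma K3_nonneg (x : ℕ) : 0 ≤ K3 x := by
  unfold K3
  refine sum_nonneg fun n _ => mul_nonneg ArithmeticFunction.vonMangoldt_nonneg ?_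
  linarith [ps_le n]

/-- the sum over one class of the other prime powers -/
noncomputable def Ka (x q a : ℕ) : ℝ := ∑ n ∈ AP 0 x q a, vonMangoldt n * (1 - ps n)

lemma Ka_nonneg (x q a : ℕ) : 0 ≤ Ka x q a := by
  unfold Ka
  refine sum_nonneg fun n _ => mul_nonneg ArithmeticFunction.vonMangoldt_nonneg ?_
  linarith [ps_le n]

lemma Ka_sum (x q : ℕ) (hq : 1 ≤ q) : ∑ a ∈ range q, Ka x q a = K3 x := by
  unfold Ka K3 AP
  have e : Ioc 0 x = Icc 1 x := by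
    ext n
    rw [mem_Icc, mem_Ioc]
    omega
  rw [e]
  simp only [sum_filter]
  rw [sum_comm]
  refine sum_congr rfl fun n _ => ?_
  rw [sum_eq_single (n % q)]
  · rw [if_pos (Nat.mod_modEq n q).symm]
  · intro a ha hne
    rw [if_neg]
    intro hm
    apply hne
    rw [mem_range] at ha
    have h2 : n % q = a % q := hm
    rw [h2, Nat.mod_eq_of_lt ha]
  · intro hn
    exact absurd (mem_range.mpr (Nat.mod_lt n hq)) hn

lemma Psi_sub (P : ℕ) (f : ℕ → ℂ) (hf : ∀ n, ‖f n‖ ≤ 1) (χ : DirichletCharacter ℂ P) (x q a : ℕ) :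
    ‖Psi P f χ x q a - Sp P f χ x q a‖ ≤ Ka x q a := by
  unfold Psi Sp Ka
  rw [← sum_sub_distrib]
  refine (norm_sum_le _ _).trans (sum_le_sum fun n _ => ?_)
  have e : (vonMangoldt n : ℂ) * Gv P f χ n - ((vonMangoldt n * ps n : ℝ) : ℂ) * Gv P f χ n =
      ((vonMangoldt n * (1 - ps n) : ℝ) : ℂ) * Gv P f χ n := by
    push_cast
    ring
  have h1 : 0 ≤ vonMangoldt n * (1 - ps n) :=
    mul_nonneg ArithmeticFunction.vonMangoldt_nonneg (by linarith [ps_le n])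
  rw [e, norm_mul, Complex.norm_real, Real.norm_eq_abs, abs_of_nonneg h1]
  exact mul_le_of_le_one_right h1 (Gv_le P f hf χ n)

lemma Mc_sub (P : ℕ) (f : ℕ → ℂ) (hf : ∀ n, ‖f n‖ ≤ 1) (χ : DirichletCharacter ℂ P) (x r : ℕ) (h : x ≤ 2 ^ r) :
    |Mc P f χ x - Mp P f χ x| ≤ ((r:ℝ) + 1) * K3 x := by
  unfold Mc Mp K3
  rw [← sum_sub_distrib, mul_sum]
  refine (abs_sum_le_sum_abs _ _).trans (sum_le_sum fun n hn => ?_)
  rw [mem_Icc] at hn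
  have h0 : 0 ≤ vonMangoldt n := ArithmeticFunction.vonMangoldt_nonneg
  have h1 : 0 ≤ vonMangoldt n * (1 - ps n) := mul_nonneg h0 (by linarith [ps_le n])
  have h2 : ‖Gv P f χ n‖ ^ 2 ≤ 1 := pow_le_one₀ (norm_nonneg _) (Gv_le P f hf χ n)
  have h3 : vonMangoldt n ≤ (r:ℝ) + 1 :=
    ArithmeticFunction.vonMangoldt_le_log.trans (log_le_r n r hn.1 (hn.2.trans h))
  have e : vonMangoldt n ^ 2 * ‖Gv P f χ n‖ ^ 2 - (vonMangoldt n * ps n) ^ 2 * ‖Gv P f χ n‖ ^ 2 =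
      vonMangoldt n * (vonMangoldt n * (1 - ps n)) * ‖Gv P f χ n‖ ^ 2 := by
    rw [mul_pow, ps_sq]
    ring
  rw [e, abs_of_nonneg (by positivity)]
  calc vonMangoldt n * (vonMangoldt n * (1 - ps n)) * ‖Gv P f χ n‖ ^ 2 ≤
      vonMangoldt n * (vonMangoldt n * (1 - ps n)) * 1 := by gcongr
    _ ≤ ((r:ℝ) + 1) * (vonMangoldt n * (1 - ps n)) := by rw [mul_one]; gcongr

theorem detC (hE : EVN) (hM : MAX) (hN : NCP) (ε κ : ℝ) (hε0 : 0 < ε) (hε1 : ε ≤ 1) (hκ : κ = ε ^ 2 / 20) :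
    ∃ K1 : ℝ, 0 < K1 ∧ ∀ (r q x P l : ℕ) (f : ℕ → ℂ) (χ : DirichletCharacter ℂ P), (∀ n, ‖f n‖ ≤ 1) → 1 ≤ r →
      x ≤ 2 ^ r → 2 ^ r ≤ 2 * x → 1 ≤ q → q ≤ x → (x:ℝ) ^ ε ≤ q → l.Prime → 2 ^ r < l →
      χ ∉ BadD r (jr κ r) P q l f (Tr κ r) →
      |∑ a ∈ (range q).filter (fun a => Nat.Coprime a q), ‖Psi P f χ x q a‖ ^ 2 - Mc P f χ x| ≤
        K1 * (((r:ℝ) + 1) ^ 6 * ((2:ℝ) ^ r) ^ (1 - κ / 2)) := by
  have he2 : 0 < ε ^ 2 := by positivity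
  have he21 : ε ^ 2 ≤ ε := by nlinarith
  have hκ0 : 0 < κ := by rw [hκ]; positivity
  have hκ1 : κ ≤ 1 / 20 := by rw [hκ]; linarith
  obtain ⟨K0, hK0, hdet⟩ := detS hE hM hN ε κ hε0 hε1 hκ
  refine ⟨2 * K0 + (2 + 2 * K0) + 3, by positivity, ?_⟩
  intro r q x P l f χ hf hr hx1 hx2 hq1 hqx hxq hl hrl hχ
  obtain ⟨h1, h2⟩ := hdet r q x P l f χ hf hr hx1 hx2 hq1 hqx hxq hl hrl hχ
  obtain ⟨R, hR⟩ : ∃ R : ℝ, R = (2:ℝ) ^ r := ⟨_, rfl⟩
  have hR1 : 1 ≤ R := by rw [hR]; exact one_le_pow₀ (by norm_num)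
  have hR0 : 0 < R := by linarith
  have hr0 : (0:ℝ) ≤ r := Nat.cast_nonneg r
  have hr1 : (1:ℝ) ≤ (r:ℝ) + 1 := by linarith
  have hRm : ∀ a b : ℝ, a ≤ b → R ^ a ≤ R ^ b := fun a b h => Real.rpow_le_rpow_of_exponent_le hR1 h
  obtain ⟨W, hW⟩ : ∃ W : ℝ, W = R ^ (1 - κ / 2) := ⟨_, rfl⟩
  have hW0 : 0 < W := by rw [hW]; positivity
  rw [← hR, ← hW] at h1
  rw [← hR] at h2
  rw [← hR, ← hW]
  have hK3 := K3_le x r hx1
  have hK30 := K3_nonneg x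
  rw [← hR] at hK3
  obtain ⟨V, hV⟩ : ∃ V : ℝ, V = ((r:ℝ) + 1) ^ 6 * W := ⟨_, rfl⟩
  rw [← hV] at h1 ⊢
  have hV0 : 0 < V := by rw [hV]; positivity
  -- the main term
  have hMc := Mc_sub P f hf χ x r hx1
  have hMc2 : ((r:ℝ) + 1) * K3 x ≤ V := by
    calc ((r:ℝ) + 1) * K3 x ≤ ((r:ℝ) + 1) * (((r:ℝ) + 1) ^ 2 * R ^ ((1:ℝ) / 3)) := by gcongr
      _ = ((r:ℝ) + 1) ^ 3 * R ^ ((1:ℝ) / 3) := by ring
      _ ≤ ((r:ℝ) + 1) ^ 6 * W := by
          rw [hW]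
          have := hRm (1 / 3) (1 - κ / 2) (by linarith)
          have h3 : ((r:ℝ) + 1) ^ 3 ≤ ((r:ℝ) + 1) ^ 6 := pow_le_pow_right₀ hr1 (by norm_num)
          gcongr
      _ = V := hV.symm
  -- the mean square
  obtain ⟨A, hA⟩ : ∃ A, A = (range q).filter (fun a => Nat.Coprime a q) := ⟨_, rfl⟩
  rw [← hA] at h1 ⊢
  obtain ⟨S, hS⟩ : ∃ S : ℝ, S = ∑ a ∈ A, ‖Sp P f χ x q a‖ ^ 2 := ⟨_, rfl⟩
  rw [← hS] at h1
  have hWR : W ≤ R := by
    rw [hW]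
    calc R ^ (1 - κ / 2) ≤ R ^ (1:ℝ) := hRm _ _ (by linarith)
      _ = R := Real.rpow_one R
  have hSle : S ≤ (2 + 2 * K0) * (((r:ℝ) + 1) ^ 6 * R) := by
    have h3 := (abs_le.mp h1).2
    have h4 : ((r:ℝ) + 1) ^ 2 * R ≤ ((r:ℝ) + 1) ^ 6 * R := by
      apply mul_le_mul_of_nonneg_right _ hR0.le
      exact pow_le_pow_right₀ hr1 (by norm_num)
    have h5 : 2 * K0 * V ≤ 2 * K0 * (((r:ℝ) + 1) ^ 6 * R) := by rw [hV]; gcongr
    linarith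
  obtain ⟨t, ht⟩ : ∃ t : ℝ, t = R ^ (-((1:ℝ) / 8)) := ⟨_, rfl⟩
  have ht0 : 0 < t := by rw [ht]; positivity
  have ht1 : t ≤ 1 := by rw [ht]; exact Real.rpow_le_one_of_one_le_of_nonpos hR1 (by norm_num)
  have hpt : ∀ a ∈ A, |‖Psi P f χ x q a‖ ^ 2 - ‖Sp P f χ x q a‖ ^ 2| ≤
      t * ‖Sp P f χ x q a‖ ^ 2 + 2 * (Ka x q a ^ 2 / t) := by
    intro a _
    have h3 := Psi_sub P f hf χ x q a
    obtain ⟨u, hu⟩ : ∃ u : ℝ, u = ‖Psi P f χ x q a‖ := ⟨_, rfl⟩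
    obtain ⟨v, hv⟩ : ∃ v : ℝ, v = ‖Sp P f χ x q a‖ := ⟨_, rfl⟩
    obtain ⟨k, hk⟩ : ∃ k : ℝ, k = Ka x q a := ⟨_, rfl⟩
    have h4 : |u - v| ≤ k := by
      rw [hu, hv, hk]
      exact (abs_norm_sub_norm_le _ _).trans h3
    have hk0 : 0 ≤ k := le_trans (abs_nonneg _) h4
    have hv0 : 0 ≤ v := by rw [hv]; exact norm_nonneg _
    have hu0 : 0 ≤ u := by rw [hu]; exact norm_nonneg _
    rw [← hu, ← hv, ← hk]
    have h5 : k ^ 2 ≤ k ^ 2 / t := by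
      rw [le_div_iff₀ ht0]
      nlinarith [sq_nonneg k]
    have h6 : 2 * (k * v) ≤ t * v ^ 2 + k ^ 2 / t := by
      have h7 : 0 ≤ (t * v - k) ^ 2 / t := by positivity
      have h8 : (t * v - k) ^ 2 / t = t * v ^ 2 + k ^ 2 / t - 2 * (k * v) := by
        field_simp
        ring
      rw [h8] at h7
      linarith
    have h9 : u ^ 2 - v ^ 2 = (u - v) ^ 2 + 2 * (v * (u - v)) := by ring
    rw [h9]
    have h10 : (u - v) ^ 2 ≤ k ^ 2 := by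
      rw [← sq_abs (u - v)]
      exact pow_le_pow_left₀ (abs_nonneg _) h4 2
    calc |(u - v) ^ 2 + 2 * (v * (u - v))| ≤ |(u - v) ^ 2| + |2 * (v * (u - v))| := abs_add_le _ _
      _ = (u - v) ^ 2 + 2 * (v * |u - v|) := by
          rw [abs_of_nonneg (sq_nonneg _), abs_mul, abs_mul, abs_two, abs_of_nonneg hv0]
      _ ≤ k ^ 2 + 2 * (v * k) := by gcongr
      _ ≤ _ := by linarith [mul_comm v k]
  have hsum : |∑ a ∈ A, ‖Psi P f χ x q a‖ ^ 2 - S| ≤ t * S + 2 * (K3 x ^ 2 / t) := by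
    rw [hS, ← sum_sub_distrib]
    refine (abs_sum_le_sum_abs _ _).trans ((sum_le_sum hpt).trans ?_)
    rw [sum_add_distrib, ← mul_sum, ← mul_sum, ← sum_div]
    have h3 : ∑ a ∈ A, Ka x q a ^ 2 ≤ K3 x ^ 2 := by
      have h4 : ∑ a ∈ A, Ka x q a ^ 2 ≤ ∑ a ∈ range q, Ka x q a ^ 2 := by
        apply sum_le_sum_of_subset_of_nonneg
        · rw [hA]; exact filter_subset _ _
        · intro a _ _; positivity
      refine h4.trans ?_
      rw [← Ka_sum x q hq1]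
      rw [sq (∑ a ∈ range q, Ka x q a), sum_mul]
      refine sum_le_sum fun a ha => ?_
      rw [sq]
      apply mul_le_mul_of_nonneg_left _ (Ka_nonneg x q a)
      exact single_le_sum (f := fun a => Ka x q a) (fun b _ => Ka_nonneg x q b) ha
    gcongr
  have hb1 : t * S ≤ (2 + 2 * K0) * V := by
    have h3 : t * R ≤ W := by
      rw [ht, hW]
      nth_rewrite 2 [← Real.rpow_one R]
      rw [← Real.rpow_add hR0]
      exact hRm _ _ (by linarith)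
    calc t * S ≤ t * ((2 + 2 * K0) * (((r:ℝ) + 1) ^ 6 * R)) := by gcongr
      _ = (2 + 2 * K0) * (((r:ℝ) + 1) ^ 6 * (t * R)) := by ring
      _ ≤ (2 + 2 * K0) * (((r:ℝ) + 1) ^ 6 * W) := by gcongr
      _ = _ := by rw [hV]
  have hb2 : K3 x ^ 2 / t ≤ V := by
    rw [div_le_iff₀ ht0]
    have h3 : W * t = R ^ (7 / 8 - κ / 2) := by
      rw [ht, hW, ← Real.rpow_add hR0]
      congr 1
      ring
    calc K3 x ^ 2 ≤ (((r:ℝ) + 1) ^ 2 * R ^ ((1:ℝ) / 3)) ^ 2 := pow_le_pow_left₀ hK30 hK3 2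
      _ = ((r:ℝ) + 1) ^ 4 * R ^ ((2:ℝ) / 3) := by
          rw [mul_pow, ← pow_mul, ← Real.rpow_natCast (R ^ ((1:ℝ) / 3)), ← Real.rpow_mul hR0.le]
          norm_num
      _ ≤ ((r:ℝ) + 1) ^ 6 * R ^ (7 / 8 - κ / 2) := by
          have h4 : ((r:ℝ) + 1) ^ 4 ≤ ((r:ℝ) + 1) ^ 6 := pow_le_pow_right₀ hr1 (by norm_num)
          have h5 := hRm (2 / 3) (7 / 8 - κ / 2) (by linarith)
          gcongr
      _ = V * t := by rw [← h3, hV]; ring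
  rw [abs_le] at h1 hMc hsum ⊢
  constructor <;> nlinarith [h1.1, h1.2, hMc.1, hMc.2, hsum.1, hsum.2]

end Pool.Agent.L0h54.CV
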