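import Pool.Agent.L0h54.CV.F
import Pool.Agent.L0h54.HV.Fin5
import Pool.Agent.L0h54.HV.Bon
import Pool.Agent.L0h56.HV.NCP
import Pool.Agent.L0h56.HV.LOW
import Pool.Agent.L0h57.HV.KER
import Pool.Agent.L0h68.HV.EVN
import Pool.Agent.L0h91.HV.DIA
import Pool.Agent.L0h91.HV.MAX

set_option autoImplicit false

/-! The variance over residue classes for almost all characters: the final statement. -/

namespace Pool.Agent.L0h54.CV

open Finset Filter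
open scoped Classical Topology
open Pool.Agent.L0h41.MQ (AP mem_AP)
open Pool.Agent.L0h54.HV (KER EVN MAX NCP LOW Tr jr large_value)
open Pool.Agent.L0h54.GC (asym)
open ArithmeticFunction (vonMangoldt)

theorem natC (hK : KER) (hE : EVN) (hM : MAX) (hN : NCP) (ε : ℝ) (hε0 : 0 < ε) (hε1 : ε ≤ 1) :
    ∃ c : ℝ, 0 < c ∧ c ≤ 1 / 4 ∧ ∃ P0 : ℕ, ∀ P : ℕ, P0 ≤ P → ∀ [NeZero P], ∀ f : ℕ → ℂ, (∀ n, ‖f n‖ ≤ 1) →
      ∃ E : Finset (DirichletCharacter ℂ P), (E.card : ℝ) ≤ (P:ℝ) ^ (1 - c) ∧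
        ∀ χ : DirichletCharacter ℂ P, χ ∉ E → ∀ x q : ℕ, (P:ℝ) ^ ε ≤ x → 16 * x ^ 4 < P → (x:ℝ) ^ ε ≤ q → q ≤ x →
          |∑ a ∈ (range q).filter (fun a => Nat.Coprime a q), ‖Psi P f χ x q a‖ ^ 2 - Mc P f χ x| ≤
            (x:ℝ) ^ (1 - c) := by
  obtain ⟨κ, hκ⟩ : ∃ κ : ℝ, κ = ε ^ 2 / 20 := ⟨_, rfl⟩
  have he2 : 0 < ε ^ 2 := by positivity
  have he21 : ε ^ 2 ≤ 1 := by nlinarith
  have hκ0 : 0 < κ := by rw [hκ]; positivity
  have hκ1 : κ ≤ 1 := by rw [hκ]; linarith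
  obtain ⟨c1, hc1, hc12, Q1, hall⟩ := all_scalesC hK ε κ hε0 hε1 hκ
  obtain ⟨K0, hK0, hdet⟩ := detC hE hM hN ε κ hε0 hε1 hκ
  obtain ⟨c, hc⟩ : ∃ c : ℝ, c = min c1 (κ / 4) := ⟨_, rfl⟩
  have hc0 : 0 < c := by rw [hc, lt_min_iff]; exact ⟨hc1, by positivity⟩
  have hcc : c ≤ c1 := by rw [hc]; exact min_le_left _ _
  have hcκ : c ≤ κ / 4 := by rw [hc]; exact min_le_right _ _
  obtain ⟨X0, hX0⟩ := eventually_atTop.mp ((asym 1 (κ / 32) (by positivity)).and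
    ((asym (128 * K0) (κ / 16) (by positivity)).and (eventually_ge_atTop 2)))
  have hev := (((tendsto_rpow_atTop hε0).comp
      (tendsto_natCast_atTop_atTop (R := ℝ))).eventually_ge_atTop (X0 : ℝ)).and
    ((eventually_ge_atTop 1).and (eventually_ge_atTop Q1))
  obtain ⟨Q0, hQ0⟩ := eventually_atTop.mp hev
  refine ⟨c, hc0, by linarith, Q0, ?_⟩
  intro P hP _ f hf
  obtain ⟨v1, hP1, hPP⟩ := hQ0 P hP
  simp only [Function.comp] at v1
  obtain ⟨l, hlP, hl⟩ := Nat.exists_infinite_primes (P + 1)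
  obtain ⟨E, hE1, hE2⟩ := hall P hPP l hl (by omega) f hf
  have hq1 : (1:ℝ) ≤ P := by exact_mod_cast hP1
  refine ⟨E, hE1.trans (Real.rpow_le_rpow_of_exponent_le hq1 (by linarith)), ?_⟩
  intro χ hχ x q h1 h4 h2 h3
  have hxX : X0 ≤ x := by exact_mod_cast v1.trans h1
  obtain ⟨w1, w2, hx2⟩ := hX0 x hxX
  have hx1 : (1:ℝ) ≤ x := by exact_mod_cast (by omega : 1 ≤ x)
  have hx0 : (0:ℝ) < x := by linarith
  obtain ⟨r, hr⟩ : ∃ r : ℕ, r = Nat.clog 2 x := ⟨_, rfl⟩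
  have hr1 : 1 ≤ r := by rw [hr]; exact Nat.clog_pos (by norm_num) hx2
  have hr2 : x ≤ 2 ^ r := by rw [hr]; exact Nat.le_pow_clog (by norm_num) x
  have hr3 : 2 ^ (r - 1) < x := by
    rw [hr]; exact Nat.pow_pred_clog_lt_self (by norm_num) hx2
  have hr4 : 2 ^ r ≤ 2 * x := by
    have : 2 ^ r = 2 * 2 ^ (r - 1) := by rw [← pow_succ']; congr 1; omega
    omega
  have hq1' : 1 ≤ q := by
    have h5 : (1:ℝ) ≤ q := le_trans (Real.one_le_rpow hx1 hε0.le) h2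
    exact_mod_cast h5
  have hxr : (x:ℝ) ≤ (2:ℝ) ^ r := by exact_mod_cast hr2
  have hrx : (2:ℝ) ^ r ≤ 2 * x := by exact_mod_cast hr4
  have g1 : (2:ℝ) ^ (ε * ((r:ℝ) - 1)) ≤ q := by
    have h5 : (2:ℝ) ^ (ε * ((r:ℝ) - 1)) = ((2:ℝ) ^ (r - 1)) ^ ε := by
      rw [← Real.rpow_natCast, ← Real.rpow_mul (by norm_num), Nat.cast_sub hr1]
      congr 1
      push_cast
      ring
    rw [h5]
    refine le_trans (Real.rpow_le_rpow (by positivity) ?_ hε0.le) h2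
    exact_mod_cast hr3.le
  have g2 : (2 ^ r) ^ 4 < P := by
    refine lt_of_le_of_lt ?_ h4
    calc (2 ^ r) ^ 4 ≤ (2 * x) ^ 4 := Nat.pow_le_pow_left hr4 4
      _ = 16 * x ^ 4 := by ring
  have g3 : 2 ^ r < l := by
    have : 2 ^ r ≤ (2 ^ r) ^ 4 := Nat.le_self_pow (by norm_num) _
    omega
  have b3 := hE2 χ hχ r q (h1.trans hxr) g2 hq1' (h3.trans hr2) g1
  have key := hdet r q x P l f χ hf hr1 hr2 hr4 hq1' h3 h2 hl g3 b3
  refine key.trans ?_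
  have hrl : (r:ℝ) + 1 ≤ 2 * (x:ℝ) ^ (κ / 32) := by
    have h5 : r ≤ Nat.log 2 x + 1 := by
      rw [hr]; exact Nat.clog_le_of_le_pow (Nat.lt_pow_succ_log_self (by norm_num) x).le
    have h6 : (r:ℝ) ≤ ((Nat.log 2 x : ℕ) : ℝ) + 1 := by exact_mod_cast h5
    have h7 : (0:ℝ) ≤ ((Nat.log 2 x : ℕ) : ℝ) := Nat.cast_nonneg _
    rw [one_mul] at w1
    linarith
  have hr6 : ((r:ℝ) + 1) ^ 6 ≤ 64 * (x:ℝ) ^ (6 * (κ / 32)) := by
    calc ((r:ℝ) + 1) ^ 6 ≤ (2 * (x:ℝ) ^ (κ / 32)) ^ 6 := pow_le_pow_left₀ (by positivity) hrl 6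
      _ = 64 * (x:ℝ) ^ (6 * (κ / 32)) := by
          rw [mul_pow, ← Real.rpow_natCast ((x:ℝ) ^ (κ / 32)) 6, ← Real.rpow_mul hx0.le]
          norm_num
          ring_nf
  have hR : ((2:ℝ) ^ r) ^ (1 - κ / 2) ≤ 2 * (x:ℝ) ^ (1 - κ / 2) := by
    calc ((2:ℝ) ^ r) ^ (1 - κ / 2) ≤ (2 * (x:ℝ)) ^ (1 - κ / 2) :=
          Real.rpow_le_rpow (by positivity) hrx (by linarith)
      _ = 2 ^ (1 - κ / 2) * (x:ℝ) ^ (1 - κ / 2) := Real.mul_rpow (by norm_num) hx0.le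
      _ ≤ 2 * (x:ℝ) ^ (1 - κ / 2) := by
          apply mul_le_mul_of_nonneg_right _ (by positivity)
          calc (2:ℝ) ^ (1 - κ / 2) ≤ 2 ^ (1:ℝ) := Real.rpow_le_rpow_of_exponent_le (by norm_num) (by linarith)
            _ = 2 := Real.rpow_one 2
  have hK : 128 * K0 ≤ (x:ℝ) ^ (κ / 16) := by
    have h7 : (0:ℝ) ≤ ((Nat.log 2 x : ℕ) : ℝ) := Nat.cast_nonneg _
    have : 128 * K0 * 1 ≤ 128 * K0 * (((Nat.log 2 x : ℕ) : ℝ) + 1) := by
      apply mul_le_mul_of_nonneg_left _ (by positivity)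
      linarith
    linarith
  calc K0 * (((r:ℝ) + 1) ^ 6 * ((2:ℝ) ^ r) ^ (1 - κ / 2)) ≤
      K0 * ((64 * (x:ℝ) ^ (6 * (κ / 32))) * (2 * (x:ℝ) ^ (1 - κ / 2))) := by gcongr
    _ = (128 * K0) * ((x:ℝ) ^ (6 * (κ / 32)) * (x:ℝ) ^ (1 - κ / 2)) := by ring
    _ ≤ (x:ℝ) ^ (κ / 16) * ((x:ℝ) ^ (6 * (κ / 32)) * (x:ℝ) ^ (1 - κ / 2)) := by gcongr
    _ = (x:ℝ) ^ (1 - κ / 4) := by
        rw [← Real.rpow_add hx0, ← Real.rpow_add hx0]
        congr 1
        ring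
    _ ≤ (x:ℝ) ^ (1 - c) := Real.rpow_le_rpow_of_exponent_le hx1 (by linarith)

/-- the diagonal from below -/
lemma Mc_lower (P : ℕ) [NeZero P] (f : ℕ → ℂ) (hf : ∀ n, ‖f n‖ = 1) (χ : DirichletCharacter ℂ P) (x : ℕ)
    (hx : 2 ≤ x) :
    ∑ n ∈ Icc 1 x, vonMangoldt n ^ 2 - 4 * Real.log P * Real.log x ^ 3 ≤ Mc P f χ x := by
  have hP : 1 ≤ P := Nat.one_le_iff_ne_zero.mpr (NeZero.ne P)
  have h1 := Pool.Agent.L0h56.HV.count_le x P x hx hP le_rfl
  have h2 := Pool.Agent.L0h56.HV.omega_le P hP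
  have h3 := Pool.Agent.L0h56.HV.natlog_le P hP
  have h4 := Pool.Agent.L0h56.HV.natlog_le x (by omega)
  have hlx : 0 ≤ Real.log x := Real.log_natCast_nonneg x
  have hlP : 0 ≤ Real.log P := Real.log_natCast_nonneg P
  have h5 : ∑ n ∈ (Ioc 0 x).filter (fun n => ¬ Nat.Coprime n P), vonMangoldt n ≤ 4 * Real.log P * Real.log x ^ 2 := by
    refine h1.trans ?_
    push_cast
    have h6 : (P.primeFactors.card : ℝ) ≤ 2 * Real.log P := by
      have : (P.primeFactors.card : ℝ) ≤ (Nat.log 2 P : ℝ) := by exact_mod_cast h2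
      linarith
    calc (P.primeFactors.card : ℝ) * (Nat.log 2 x : ℝ) * Real.log x ≤
        (2 * Real.log P) * (2 * Real.log x) * Real.log x := by gcongr
      _ = _ := by ring
  have e : Ioc 0 x = Icc 1 x := by
    ext n
    rw [mem_Icc, mem_Ioc]
    omega
  rw [e] at h5
  have h6 : ∑ n ∈ Icc 1 x, vonMangoldt n ^ 2 - Mc P f χ x ≤
      Real.log x * ∑ n ∈ (Icc 1 x).filter (fun n => ¬ Nat.Coprime n P), vonMangoldt n := by
    unfold Mc
    rw [← sum_sub_distrib, sum_filter, mul_sum]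
    refine sum_le_sum fun n hn => ?_
    rw [mem_Icc] at hn
    have h0 : 0 ≤ vonMangoldt n := ArithmeticFunction.vonMangoldt_nonneg
    by_cases hc : Nat.Coprime n P
    · rw [if_neg (not_not.mpr hc)]
      have h7 : ‖Gv P f χ n‖ = 1 := by
        unfold Gv
        have h8 : IsUnit (n : ZMod P) := (ZMod.isUnit_iff_coprime n P).mpr hc
        rw [norm_mul, hf n, one_mul]
        obtain ⟨u, hu⟩ := h8
        rw [← hu]
        exact DirichletCharacter.unit_norm_eq_one χ u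
      rw [h7]
      linarith
    · rw [if_pos hc]
      have h7 : vonMangoldt n ≤ Real.log x :=
        ArithmeticFunction.vonMangoldt_le_log.trans
          (Real.log_le_log (by exact_mod_cast hn.1) (by exact_mod_cast hn.2))
      have h8 : 0 ≤ vonMangoldt n ^ 2 * ‖Gv P f χ n‖ ^ 2 := by positivity
      nlinarith
  have h7 : Real.log x * ∑ n ∈ (Icc 1 x).filter (fun n => ¬ Nat.Coprime n P), vonMangoldt n ≤
      Real.log x * (4 * Real.log P * Real.log x ^ 2) := mul_le_mul_of_nonneg_left h5 hlx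
  have h8 : Real.log x * (4 * Real.log P * Real.log x ^ 2) = 4 * Real.log P * Real.log x ^ 3 := by ring
  linarith

theorem fullC (ε : ℝ) (hε0 : 0 < ε) :
    ∃ c : ℝ, 0 < c ∧ ∃ P0 : ℕ, ∀ P : ℕ, P0 ≤ P → ∀ [NeZero P], ∀ f : ℕ → ℂ, (∀ n, ‖f n‖ ≤ 1) →
      ∃ E : Finset (DirichletCharacter ℂ P), (E.card : ℝ) ≤ (P:ℝ) ^ (1 - c) ∧
        ∀ χ : DirichletCharacter ℂ P, χ ∉ E → ∀ x q : ℕ, (P:ℝ) ^ ε ≤ x → 16 * x ^ 4 < P → (x:ℝ) ^ ε ≤ q → q ≤ x →
          |∑ a ∈ (range q).filter (fun a => Nat.Coprime a q), ‖Psi P f χ x q a‖ ^ 2 - Mc P f χ x| ≤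
            (x:ℝ) ^ (1 - c) ∧
          ((∀ n, ‖f n‖ = 1) → ∃ a < q, Nat.Coprime a q ∧
            √((1 - ε) * (x * Real.log x) / Nat.totient q) ≤ ‖Psi P f χ x q a‖) := by
  have hK : KER := Pool.Agent.L0h57.HV.KERM.ker
  have hM : MAX := Pool.Agent.L0h91.HV.t_MAX hK Pool.Agent.L0h91.HV.t_DIA
  obtain ⟨e, he⟩ : ∃ e : ℝ, e = min ε 1 := ⟨_, rfl⟩
  have he0 : 0 < e := by rw [he, lt_min_iff]; exact ⟨hε0, one_pos⟩
  have he1 : e ≤ 1 := by rw [he]; exact min_le_right _ _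
  have heε : e ≤ ε := by rw [he]; exact min_le_left _ _
  obtain ⟨c, hc0, hc1, Q1, hmain⟩ := natC hK Pool.Agent.L0h68.HV.t_EVN hM Pool.Agent.L0h56.HV.t_NCP e he0 he1
  obtain ⟨x0, hx0⟩ := Pool.Agent.L0h56.HV.t_LOW (ε / 4) (by positivity)
  -- the error is small
  have hlog : ∀ᶠ x : ℕ in atTop, (x:ℝ) ^ (1 - c) ≤ ε / 4 * (x * Real.log x) := by
    have h1 : ∀ᶠ x : ℕ in atTop, 4 / ε ≤ Real.log x :=
      (Real.tendsto_log_atTop.comp (tendsto_natCast_atTop_atTop (R := ℝ))).eventually_ge_atTop (4 / ε)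
    filter_upwards [h1, eventually_ge_atTop 1] with x h2 h3
    have hx1 : (1:ℝ) ≤ x := by exact_mod_cast h3
    have h4 : (x:ℝ) ^ (1 - c) ≤ x := by
      calc (x:ℝ) ^ (1 - c) ≤ (x:ℝ) ^ (1:ℝ) := Real.rpow_le_rpow_of_exponent_le hx1 (by linarith)
        _ = x := Real.rpow_one _
    have h5 : 1 ≤ ε / 4 * Real.log x := by
      have h6 : ε / 4 * (4 / ε) = 1 := by field_simp
      rw [← h6]
      exact mul_le_mul_of_nonneg_left h2 (by positivity)
    calc (x:ℝ) ^ (1 - c) ≤ x * 1 := by rw [mul_one]; exact h4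
      _ ≤ x * (ε / 4 * Real.log x) := by gcongr
      _ = _ := by ring
  have hlog2 : ∀ᶠ x : ℕ in atTop, 4 / ε * Real.log x ^ 4 ≤ ε / 4 * (x * Real.log x) := by
    have h1 : Tendsto (fun x : ℝ => Real.log x ^ 3 / x) atTop (𝓝 0) := by
      have h2 := (Real.isLittleO_pow_log_id_atTop (n := 3)).tendsto_div_nhds_zero
      simpa using h2
    have h2 := (h1.comp (tendsto_natCast_atTop_atTop (R := ℝ))).eventually_lt_const
      (show (0:ℝ) < ε ^ 2 / 16 by positivity)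
    filter_upwards [h2, eventually_ge_atTop 1] with x h3 h4
    have hx1 : (1:ℝ) ≤ x := by exact_mod_cast h4
    have hx0 : (0:ℝ) < x := by linarith
    simp only [Function.comp] at h3
    rw [div_lt_iff₀ hx0] at h3
    have h5 : 0 ≤ Real.log x := Real.log_nonneg hx1
    calc 4 / ε * Real.log x ^ 4 = 4 / ε * Real.log x * Real.log x ^ 3 := by ring
      _ ≤ 4 / ε * Real.log x * (ε ^ 2 / 16 * x) := by gcongr
      _ = ε / 4 * (x * Real.log x) := by field_simp; ring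
  obtain ⟨X1, hX1⟩ := eventually_atTop.mp (hlog.and (hlog2.and (eventually_ge_atTop (max x0 2))))
  have hev := (((tendsto_rpow_atTop hε0).comp
      (tendsto_natCast_atTop_atTop (R := ℝ))).eventually_ge_atTop (X1 : ℝ)).and
    ((eventually_ge_atTop 1).and (eventually_ge_atTop Q1))
  obtain ⟨Q0, hQ0⟩ := eventually_atTop.mp hev
  refine ⟨c, hc0, Q0, ?_⟩
  intro P hP _ f hf
  obtain ⟨v1, hP1, hPP⟩ := hQ0 P hP
  simp only [Function.comp] at v1
  obtain ⟨E, hE1, hE2⟩ := hmain P hPP f hf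
  have hq1 : (1:ℝ) ≤ P := by exact_mod_cast hP1
  refine ⟨E, hE1, ?_⟩
  intro χ hχ x q h1 h4 h2 h3
  have hxX : X1 ≤ x := by exact_mod_cast v1.trans h1
  obtain ⟨w1, w3, w2⟩ := hX1 x hxX
  have hxx0 : x0 ≤ x := (le_max_left _ _).trans w2
  have hx2n : 2 ≤ x := (le_max_right _ _).trans w2
  have hx1 : (1:ℝ) ≤ x := by exact_mod_cast (by omega : 1 ≤ x)
  have g1 : (P:ℝ) ^ e ≤ x := (Real.rpow_le_rpow_of_exponent_le hq1 heε).trans h1
  have g2 : (x:ℝ) ^ e ≤ q := (Real.rpow_le_rpow_of_exponent_le hx1 heε).trans h2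
  have key := hE2 χ hχ x q g1 h4 g2 h3
  refine ⟨key, fun hf1 => ?_⟩
  have hq0 : 0 < q := by
    have h5 : (1:ℝ) ≤ q := le_trans (Real.one_le_rpow hx1 hε0.le) h2
    exact_mod_cast lt_of_lt_of_le one_pos h5
  have hlx : 0 ≤ Real.log x := Real.log_nonneg hx1
  have hM1 : (1 - ε / 4) * (x * Real.log x) - ε / 4 * (x * Real.log x) ≤ Mc P f χ x := by
    have h5 := Mc_lower P f hf1 χ x hx2n
    have h6 := hx0 x hxx0
    have h7 : ε * Real.log P ≤ Real.log x := by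
      rw [← Real.log_rpow (by linarith)]
      exact Real.log_le_log (by positivity) h1
    have h8 : 4 * Real.log P * Real.log x ^ 3 ≤ 4 / ε * Real.log x ^ 4 := by
      have h9 : Real.log P ≤ 1 / ε * Real.log x := by
        rw [div_mul_eq_mul_div, one_mul, le_div_iff₀ hε0]
        linarith
      calc 4 * Real.log P * Real.log x ^ 3 ≤ 4 * (1 / ε * Real.log x) * Real.log x ^ 3 := by gcongr
        _ = _ := by ring
    linarith
  have hlo : (1 - ε) * (x * Real.log x) ≤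
      ∑ a ∈ (range q).filter (fun a => Nat.Coprime a q), ‖Psi P f χ x q a‖ ^ 2 := by
    have h5 := (abs_le.mp key).1
    have h6 : (1 - ε / 4) * (x * Real.log x) - ε / 4 * (x * Real.log x) - ε / 4 * (x * Real.log x) =
      (1 - 3 * ε / 4) * (x * Real.log x) := by ring
    have h7 : (1 - ε) * (x * Real.log x) ≤ (1 - 3 * ε / 4) * (x * Real.log x) := by
      apply mul_le_mul_of_nonneg_right _ (by positivity)
      linarith
    linarith
  have hcard : ((range q).filter (fun a => Nat.Coprime a q)).card = Nat.totient q := by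
    rw [Nat.totient_eq_card_coprime]
    congr 1
    apply filter_congr
    intro a _
    exact Nat.coprime_comm
  have hφ : 0 < Nat.totient q := Nat.totient_pos.mpr hq0
  by_cases hneg : 0 ≤ (1 - ε) * (x * Real.log x)
  · obtain ⟨a, ha, hlarge⟩ := large_value _ (fun a => ‖Psi P f χ x q a‖) _ (by rw [hcard]; exact hφ) hneg hlo
    rw [mem_filter, mem_range] at ha
    rw [hcard] at hlarge
    refine ⟨a, ha.1, ha.2, ?_⟩
    rwa [abs_of_nonneg (norm_nonneg _)] at hlarge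
  · push Not at hneg
    have hne : ((range q).filter (fun a => Nat.Coprime a q)).Nonempty := by
      rw [← card_pos, hcard]; exact hφ
    obtain ⟨a, ha⟩ := hne
    rw [mem_filter, mem_range] at ha
    refine ⟨a, ha.1, ha.2, ?_⟩
    rw [Real.sqrt_eq_zero_of_nonpos (div_nonpos_of_nonpos_of_nonneg hneg.le (Nat.cast_nonneg _))]
    exact norm_nonneg _

end Pool.Agent.L0h54.CV
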